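import Mathlib

/-!
# Positive linear homeomorphisms of `C_p`-spaces and positive isomorphisms: definitions
-/

namespace CpK

universe u v

/-- The topology of pointwise convergence on `C(K, ℝ)`. -/
@[instance_reducible] def pwTop (K : Type u) [TopologicalSpace K] : TopologicalSpace C(K, ℝ) :=
  TopologicalSpace.induced (fun f : C(K, ℝ) => (f : K → ℝ)) inferInstance

/-- There is a positive linear homeomorphism of `C_p(K)` onto `C_p(L)`: a linear bijection
`T : C(K) → C(L)` with `T f ≥ 0` for `f ≥ 0` such that `T` and `T⁻¹` are continuous for the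
topologies of pointwise convergence. -/
def PosLinHomeoCp (K : Type u) (L : Type v) [TopologicalSpace K] [TopologicalSpace L] : Prop :=
  ∃ T : C(K, ℝ) ≃ₗ[ℝ] C(L, ℝ), (∀ f, 0 ≤ f → 0 ≤ T f) ∧
    @Continuous _ _ (pwTop K) (pwTop L) T ∧ @Continuous _ _ (pwTop L) (pwTop K) T.symm

/-- There is a positive isomorphism of the Banach space `C(K)` onto `C(L)`: a bounded linear
bijection `T : C(K) → C(L)` with bounded inverse and `T f ≥ 0` for `f ≥ 0`. -/
def PosIso (K : Type u) (L : Type v) [TopologicalSpace K] [CompactSpace K]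
    [TopologicalSpace L] [CompactSpace L] : Prop :=
  ∃ T : C(K, ℝ) ≃L[ℝ] C(L, ℝ), ∀ f, 0 ≤ f → 0 ≤ T f

end CpK
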