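import Mathlib

/-!
# Cantor–Bendixson derivatives of subsets
-/

open Set Filter Topology

namespace CpK

universe u v

/-- Transfinite Cantor–Bendixson derivative of a set `S`:
`x ∈ cb S α` iff `x ∈ S` and `x` is an accumulation point of `cb S β` for all `β < α`. -/
noncomputable def cb {X : Type u} [TopologicalSpace X] (S : Set X) (α : Ordinal.{0}) : Set X :=
  {x | x ∈ S ∧ ∀ β : Set.Iio α, AccPt x (𝓟 (cb S β.1))}
termination_by α
decreasing_by exact β.2

section basic

variable {X : Type u} [TopologicalSpace X] {S T U : Set X} {α β : Ordinal.{0}} {x : X}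

theorem mem_cb : x ∈ cb S α ↔ x ∈ S ∧ ∀ β, β < α → AccPt x (𝓟 (cb S β)) := by
  rw [cb]
  constructor
  · rintro ⟨h, h'⟩
    exact ⟨h, fun β hβ => h' ⟨β, hβ⟩⟩
  · rintro ⟨h, h'⟩
    exact ⟨h, fun β => h' β.1 β.2⟩

theorem cb_subset : cb S α ⊆ S := fun _ h => (mem_cb.1 h).1

@[simp] theorem cb_zero : cb S 0 = S := by
  ext x
  rw [mem_cb]
  constructor
  · exact fun h => h.1
  · exact fun h => ⟨h, fun β hβ => absurd hβ (not_lt.2 (zero_le))⟩

theorem cb_anti (h : α ≤ β) : cb S β ⊆ cb S α := by
  intro x hx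
  rw [mem_cb] at hx ⊢
  exact ⟨hx.1, fun γ hγ => hx.2 γ (hγ.trans_le h)⟩

theorem cb_mono (h : S ⊆ T) : cb S α ⊆ cb T α := by
  induction α using WellFoundedLT.induction with
  | ind α ih =>
    intro x hx
    rw [mem_cb] at hx ⊢
    exact ⟨h hx.1, fun β hβ => (hx.2 β hβ).mono (principal_mono.2 (ih β hβ))⟩

@[simp] theorem cb_empty : cb (∅ : Set X) α = ∅ :=
  subset_empty_iff.1 cb_subset

theorem cb_closed [T1Space X] (hS : IsClosed S) : IsClosed (cb S α) := by
  have : cb S α = S ∩ ⋂ β : Set.Iio α, derivedSet (cb S β.1) := by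
    ext x
    rw [mem_cb]
    simp [mem_iInter]
  rw [this]
  exact hS.inter (isClosed_iInter fun _ => isClosed_derivedSet _)

theorem cb_inter_open (hU : IsOpen U) : cb (S ∩ U) α = cb S α ∩ U := by
  induction α using WellFoundedLT.induction with
  | ind α ih =>
    ext x
    constructor
    · intro hx
      exact ⟨cb_mono inter_subset_left hx, (cb_subset hx).2⟩
    · rintro ⟨hx, hxU⟩
      rw [mem_cb] at hx ⊢
      refine ⟨⟨hx.1, hxU⟩, fun β hβ => ?_⟩
      rw [ih β hβ, inter_comm]
      exact (hx.2 β hβ).nhds_inter (hU.mem_nhds hxU)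

theorem mem_cb_add_one : x ∈ cb S (α + 1) ↔ x ∈ S ∧ AccPt x (𝓟 (cb S α)) := by
  rw [mem_cb]
  constructor
  · rintro ⟨h1, h2⟩
    exact ⟨h1, h2 α (Order.lt_add_one_iff.2 le_rfl)⟩
  · rintro ⟨h1, h2⟩
    exact ⟨h1, fun β hβ => h2.mono (principal_mono.2 (cb_anti (Order.lt_add_one_iff.1 hβ)))⟩

theorem cb_add : cb S (α + β) = cb (cb S α) β := by
  induction β using WellFoundedLT.induction with
  | ind β ih =>
    ext x
    constructor
    · intro hx
      rw [mem_cb]
      refine ⟨cb_anti le_self_add hx, fun γ hγ => ?_⟩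
      rw [← ih γ hγ]
      exact (mem_cb.1 hx).2 (α + γ) (by gcongr)
    · intro hx
      rw [mem_cb] at hx
      rw [mem_cb]
      refine ⟨cb_subset hx.1, fun γ hγ => ?_⟩
      rcases lt_or_ge γ α with h | h
      · exact (mem_cb.1 hx.1).2 γ h
      · obtain ⟨δ, rfl⟩ : ∃ δ, γ = α + δ := ⟨γ - α, (Ordinal.add_sub_cancel_of_le h).symm⟩
        have hδ : δ < β := lt_of_add_lt_add_left hγ
        rw [ih δ hδ]
        exact hx.2 δ hδ

theorem cb_union (hS : IsClosed S) (hT : IsClosed T) : cb (S ∪ T) α = cb S α ∪ cb T α := by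
  induction α using WellFoundedLT.induction with
  | ind α ih =>
    apply Subset.antisymm
    · intro x hx
      rcases eq_or_ne α 0 with rfl | hα
      · simpa using hx
      have hα' : 0 < α := pos_iff_ne_zero.2 hα
      have key : ∀ β, β < α → AccPt x (𝓟 (cb S β)) ∨ AccPt x (𝓟 (cb T β)) := by
        intro β hβ
        have := (mem_cb.1 hx).2 β hβ
        rw [ih β hβ, ← sup_principal, accPt_sup] at this
        exact this
      by_cases h : ∀ β, β < α → AccPt x (𝓟 (cb S β))
      · left
        rw [mem_cb]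
        refine ⟨?_, h⟩
        have := h 0 hα'
        rw [cb_zero] at this
        exact (isClosed_iff_derivedSet_subset S).1 hS this
      · push Not at h
        obtain ⟨β₀, hβ₀, hn⟩ := h
        right
        have h2 : ∀ β, β < α → AccPt x (𝓟 (cb T β)) := by
          intro β hβ
          rcases le_total β β₀ with hle | hle
          · exact ((key β₀ hβ₀).resolve_left hn).mono (principal_mono.2 (cb_anti hle))
          · refine (key β hβ).resolve_left fun h => hn (h.mono (principal_mono.2 (cb_anti hle)))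
        rw [mem_cb]
        refine ⟨?_, h2⟩
        have := h2 0 hα'
        rw [cb_zero] at this
        exact (isClosed_iff_derivedSet_subset T).1 hT this
    · exact union_subset (cb_mono subset_union_left) (cb_mono subset_union_right)

theorem cb_biUnion_empty {ι : Type*} (s : Finset ι) (F : ι → Set X)
    (hF : ∀ i ∈ s, IsClosed (F i)) (hD : ∀ i ∈ s, cb (F i) α = ∅) :
    cb (⋃ i ∈ s, F i) α = ∅ := by
  classical
  induction s using Finset.induction_on with
  | empty => simp
  | insert a s ha ih =>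
    rw [Finset.set_biUnion_insert, cb_union (hF a (by simp))]
    · rw [hD a (by simp), ih (fun i hi => hF i (by simp [hi])) (fun i hi => hD i (by simp [hi]))]
      simp
    · exact s.finite_toSet.isClosed_biUnion (fun i hi => hF i (Finset.mem_insert_of_mem hi))

end basic

section maps

variable {X : Type u} {Y : Type v} [TopologicalSpace X] [TopologicalSpace Y]

theorem accPt_image_of_injective {f : X → Y} {x : X} {A : Set X} (hf : ContinuousAt f x)
    (hi : Function.Injective f) (h : AccPt x (𝓟 A)) : AccPt (f x) (𝓟 (f '' A)) := by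
  have := h.map hf hi
  rwa [map_principal] at this

theorem accPt_image_iff {f : X → Y} (hf : IsEmbedding f) {x : X} {A : Set X} :
    AccPt (f x) (𝓟 (f '' A)) ↔ AccPt x (𝓟 A) := by
  constructor
  · intro h
    rw [accPt_iff_nhds] at h ⊢
    intro U hU
    rw [hf.nhds_eq_comap, mem_comap] at hU
    obtain ⟨V, hV, hVU⟩ := hU
    obtain ⟨y, ⟨hyV, ⟨z, hzA, rfl⟩⟩, hne⟩ := h V hV
    exact ⟨z, ⟨hVU hyV, hzA⟩, fun h => hne (by rw [h])⟩
  · exact accPt_image_of_injective hf.continuous.continuousAt hf.injective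

theorem cb_image {f : X → Y} (hf : IsEmbedding f) (S : Set X) (α : Ordinal.{0}) :
    cb (f '' S) α = f '' (cb S α) := by
  induction α using WellFoundedLT.induction with
  | ind α ih =>
    ext y
    constructor
    · intro hy
      rw [mem_cb] at hy
      obtain ⟨⟨x, hxS, rfl⟩, hy⟩ := hy
      refine ⟨x, ?_, rfl⟩
      rw [mem_cb]
      refine ⟨hxS, fun β hβ => ?_⟩
      have := hy β hβ
      rwa [ih β hβ, accPt_image_iff hf] at this
    · rintro ⟨x, hx, rfl⟩
      rw [mem_cb] at hx ⊢
      refine ⟨⟨x, hx.1, rfl⟩, fun β hβ => ?_⟩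
      rw [ih β hβ, accPt_image_iff hf]
      exact hx.2 β hβ

/-- Injective continuous maps push the derivatives forward. -/
theorem image_cb_subset {f : X → Y} {S : Set X} (hf : ContinuousOn f S) (hi : InjOn f S)
    (α : Ordinal.{0}) : f '' (cb S α) ⊆ cb (f '' S) α := by
  induction α using WellFoundedLT.induction with
  | ind α ih =>
    rintro _ ⟨x, hx, rfl⟩
    rw [mem_cb] at hx ⊢
    refine ⟨⟨x, hx.1, rfl⟩, fun β hβ => ?_⟩
    have h1 := hx.2 β hβ
    rw [accPt_iff_nhds] at h1 ⊢
    intro V hV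
    have h2 := (hf x hx.1).preimage_mem_nhdsWithin hV
    rw [mem_nhdsWithin_iff_exists_mem_nhds_inter] at h2
    obtain ⟨U, hU, hUV⟩ := h2
    obtain ⟨y, ⟨hyU, hyS⟩, hne⟩ := h1 U hU
    have hyS' := cb_subset hyS
    exact ⟨f y, ⟨hUV ⟨hyU, hyS'⟩, ih β hβ ⟨y, hyS, rfl⟩⟩, fun h => hne (hi hyS' hx.1 h)⟩

theorem cb_subtype (S : Set X) (α : Ordinal.{0}) :
    (Subtype.val : S → X) '' (cb (univ : Set S) α) = cb S α := by
  rw [← cb_image IsEmbedding.subtypeVal]
  simp

end maps

section compact

variable {X : Type u} [TopologicalSpace X]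

theorem cb_limit {S : Set X} {α : Ordinal.{0}} (hα : Order.IsSuccLimit α) :
    cb S α = ⋂ β : Set.Iio α, cb S β.1 := by
  ext x
  rw [mem_iInter]
  constructor
  · intro hx β
    exact cb_anti (le_of_lt β.2) hx
  · intro hx
    rw [mem_cb]
    have h0 : (0 : Ordinal) < α := pos_iff_ne_zero.2 hα.ne_bot
    refine ⟨cb_subset (hx ⟨0, h0⟩), fun β hβ => ?_⟩
    have := hx ⟨β + 1, hα.add_one_lt hβ⟩
    exact (mem_cb_add_one.1 this).2

theorem exists_cb_empty_of_limit [T2Space X] {S : Set X} (hS : IsCompact S) {α : Ordinal.{0}}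
    (hα : Order.IsSuccLimit α) (h : cb S α = ∅) : ∃ β < α, cb S β = ∅ := by
  by_contra hcon
  push Not at hcon
  have h0 : (0 : Ordinal) < α := pos_iff_ne_zero.2 hα.ne_bot
  have : (⋂ β : Set.Iio α, cb S β.1).Nonempty := by
    have : Nonempty (Set.Iio α) := ⟨⟨0, h0⟩⟩
    refine IsCompact.nonempty_iInter_of_directed_nonempty_isCompact_isClosed _ ?_ ?_ ?_ ?_
    · intro β γ
      rcases le_total β.1 γ.1 with hle | hle
      · exact ⟨γ, cb_anti hle, Subset.rfl⟩
      · exact ⟨β, Subset.rfl, cb_anti hle⟩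
    · intro β
      exact hcon β.1 β.2
    · intro β
      exact hS.of_isClosed_subset (cb_closed hS.isClosed) cb_subset
    · intro β
      exact cb_closed hS.isClosed
  rw [← cb_limit hα, h] at this
  exact this.ne_empty rfl

end compact

end CpK
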