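import Mathlib
import Pool.Agent.CpK.Deriv

/-!
# Countable compact Hausdorff spaces
-/

open Set Filter Topology

namespace CpK

universe u v

section

variable {X : Type u} [TopologicalSpace X] [CompactSpace X] [T2Space X] [Countable X]

instance (priority := 50) totDisc : TotallyDisconnectedSpace X := by
  constructor
  intro C _ hC x hx y hy
  by_contra hne
  obtain ⟨f, hf0, hf1, -⟩ := exists_continuous_zero_one_of_isClosed (isClosed_singleton (x := x))
    (isClosed_singleton (x := y)) (by simpa using hne)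
  have h1 : IsPreconnected (f '' C) := hC.image f f.continuous.continuousOn
  have h2 : Icc (0 : ℝ) 1 ⊆ f '' C := by
    refine h1.Icc_subset ⟨x, hx, ?_⟩ ⟨y, hy, ?_⟩
    · exact hf0 rfl
    · exact hf1 rfl
  have h3 : (Icc (0 : ℝ) 1).Countable := ((Set.to_countable C).image f).mono h2
  exact absurd h3 (by
    intro h
    have := h.measure_zero MeasureTheory.volume
    simp at this)

theorem exists_clopen_nhd {x : X} {U : Set X} (hU : U ∈ 𝓝 x) :
    ∃ V : Set X, IsClopen V ∧ x ∈ V ∧ V ⊆ U := by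
  obtain ⟨W, hWU, hW, hxW⟩ := mem_nhds_iff.1 hU
  obtain ⟨V, hV, hxV, hVW⟩ := compact_exists_isClopen_in_isOpen hW hxW
  exact ⟨V, hV, hxV, hVW.trans hWU⟩

/-- A closed embedding into the Cantor cube. -/
theorem exists_embedding_cube : ∃ e : X → (ℕ → Bool), IsClosedEmbedding e := by
  classical
  rcases isEmpty_or_nonempty X with h | h
  · refine ⟨fun x => (IsEmpty.false x).elim, ?_⟩
    exact IsClosedEmbedding.of_continuous_injective_isClosedMap
      (continuous_of_const fun x => (IsEmpty.false x).elim)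
      (fun x => (IsEmpty.false x).elim)
      (fun s _ => by
        have : s = ∅ := Set.eq_empty_of_isEmpty s
        simp [this])
  obtain ⟨g, hg⟩ := exists_surjective_nat (X × X)
  have key : ∀ n : ℕ, ∃ V : Set X, IsClopen V ∧ ((g n).1 ≠ (g n).2 → (g n).1 ∈ V ∧ (g n).2 ∉ V) := by
    intro n
    by_cases hne : (g n).1 = (g n).2
    · exact ⟨∅, isClopen_empty, fun h => absurd hne h⟩
    · obtain ⟨V, hV, hx, hVs⟩ := exists_clopen_nhd (isOpen_ne.mem_nhds hne :
        {z | z ≠ (g n).2} ∈ 𝓝 (g n).1)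
      exact ⟨V, hV, fun _ => ⟨hx, fun hm => hVs hm rfl⟩⟩
  choose V hV hVs using key
  refine ⟨fun x n => decide (x ∈ V n), ?_⟩
  refine Continuous.isClosedEmbedding ?_ ?_
  · refine continuous_pi fun n => ?_
    rw [continuous_discrete_rng]
    intro b
    cases b
    · have : (fun x => decide (x ∈ V n)) ⁻¹' {false} = (V n)ᶜ := by ext x; simp
      rw [this]
      exact (hV n).compl.isOpen
    · have : (fun x => decide (x ∈ V n)) ⁻¹' {true} = V n := by ext x; simp
      rw [this]
      exact (hV n).isOpen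
  · intro x y hxy
    by_contra hne
    obtain ⟨n, hn⟩ := hg (x, y)
    have h1 := hVs n (by rw [hn]; exact hne)
    rw [hn] at h1
    have h2 := congrFun hxy n
    simp only [decide_eq_decide] at h2
    exact h1.2 (h2.1 h1.1)

instance (priority := 50) secondCountable : SecondCountableTopology X := by
  obtain ⟨e, he⟩ := exists_embedding_cube (X := X)
  exact he.isEmbedding.secondCountableTopology

/-- Retraction onto a nonempty closed subset. -/
theorem exists_retraction {Z : Set X} (hZ : IsClosed Z) (hne : Z.Nonempty) :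
    ∃ r : X → Z, Continuous r ∧ ∀ z : Z, r z = z := by
  obtain ⟨e, he⟩ := exists_embedding_cube (X := X)
  have h1 : IsClosed (e '' Z) := he.isClosedMap Z hZ
  obtain ⟨f, hf, -, hfc⟩ := PiNat.exists_retraction_subtype_of_isClosed h1 (hne.image e)
  have hemb : IsEmbedding (fun z : Z => e z) := he.isEmbedding.comp IsEmbedding.subtypeVal
  choose! g hg using fun (x : X) => (f (e x)).2
  refine ⟨fun x => ⟨g x, (hg x).1⟩, ?_, ?_⟩
  · rw [hemb.continuous_iff]
    have : (fun z : Z => e z) ∘ (fun x => (⟨g x, (hg x).1⟩ : Z)) = fun x => (f (e x)).1 := by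
      ext1 x
      exact (hg x).2
    rw [this]
    exact continuous_subtype_val.comp (hfc.comp he.continuous)
  · intro z
    have h2 : f (e z) = ⟨e z, mem_image_of_mem e z.2⟩ := hf ⟨e z, mem_image_of_mem e z.2⟩
    ext1
    apply he.injective
    change e (g z) = e z
    rw [(hg z).2, h2]

/-- A decreasing clopen neighbourhood basis. -/
theorem exists_clopen_basis (x : X) : ∃ U : ℕ → Set X, (∀ n, IsClopen (U n)) ∧ (∀ n, x ∈ U n) ∧
    (∀ V ∈ 𝓝 x, ∃ n, U n ⊆ V) := by
  obtain ⟨B, hB⟩ := (𝓝 x).exists_antitone_basis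
  have h1 : ∀ n, ∃ V : Set X, IsClopen V ∧ x ∈ V ∧ V ⊆ B n := fun n =>
    exists_clopen_nhd (hB.1.mem_of_mem trivial)
  choose U hU hx hUB using h1
  refine ⟨U, hU, hx, fun V hV => ?_⟩
  obtain ⟨n, -, hn⟩ := hB.1.mem_iff.1 hV
  exact ⟨n, (hUB n).trans hn⟩

/-- Baire: a nonempty closed set has a point which is not an accumulation point. -/
theorem closed_has_isolated {C : Set X} (hC : IsClosed C) (hne : C.Nonempty) :
    ∃ x ∈ C, ¬ AccPt x (𝓟 C) := by
  by_contra hcon
  push Not at hcon
  have : CompactSpace C := isCompact_iff_compactSpace.1 hC.isCompact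
  have : Nonempty C := hne.to_subtype
  have hU : (⋃ x : C, ({x} : Set C)) = univ := Set.iUnion_of_singleton C
  obtain ⟨x, hx⟩ := nonempty_interior_of_iUnion_of_closed (fun x : C => isClosed_singleton) hU
  have hopen : IsOpen ({x} : Set C) := by
    obtain ⟨y, hy⟩ := hx
    have : y = x := by
      have := interior_subset hy
      simpa using this
    subst this
    have h3 : interior ({y} : Set C) = {y} := by
      apply Subset.antisymm interior_subset
      simpa using hy
    rw [← h3]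
    exact isOpen_interior
  have h1 := hcon x x.2
  rw [isOpen_induced_iff] at hopen
  obtain ⟨V, hV, hVx⟩ := hopen
  rw [accPt_iff_nhds] at h1
  obtain ⟨y, ⟨hyV, hyC⟩, hne'⟩ := h1 V (hV.mem_nhds (by
    have : x ∈ (Subtype.val ⁻¹' V : Set C) := by rw [hVx]; rfl
    exact this))
  have : (⟨y, hyC⟩ : C) ∈ (Subtype.val ⁻¹' V : Set C) := hyV
  rw [hVx] at this
  exact hne' (congrArg Subtype.val this)

theorem exists_cb_empty : ∃ α : Ordinal.{0}, cb (univ : Set X) α = ∅ := by
  by_contra hcon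
  push Not at hcon
  have h1 : ∀ α : Ordinal.{0}, ∃ x ∈ cb (univ : Set X) α, x ∉ cb (univ : Set X) (α + 1) := by
    intro α
    obtain ⟨x, hx, hnx⟩ := closed_has_isolated (cb_closed isClosed_univ) (hcon α)
    exact ⟨x, hx, fun h => hnx (mem_cb_add_one.1 h).2⟩
  choose f hf hf' using h1
  have : Small.{0} X := Countable.toSmall X
  apply not_injective_of_ordinal f
  intro a b hab
  by_contra hne
  rcases lt_or_gt_of_ne hne with h | h
  · exact hf' a (hab ▸ cb_anti (Order.add_one_le_of_lt h) (hf b))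
  · exact hf' b (hab ▸ cb_anti (Order.add_one_le_of_lt h) (hf a))

theorem scattered {S : Set X} (hne : S.Nonempty) : ∃ x ∈ S, ¬ AccPt x (𝓟 S) := by
  obtain ⟨α₀, hα₀⟩ := exists_cb_empty (X := X)
  have hex : ∃ α : Ordinal.{0}, ¬ S ⊆ cb (univ : Set X) α := by
    refine ⟨α₀, ?_⟩
    rw [hα₀]
    intro h
    exact hne.ne_empty (subset_empty_iff.1 h)
  let P : Set Ordinal.{0} := {α | ¬ S ⊆ cb (univ : Set X) α}
  have hP : P.Nonempty := hex
  have h1 : ¬ S ⊆ cb (univ : Set X) (sInf P) := csInf_mem hP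
  have h2 : ∀ β < sInf P, S ⊆ cb (univ : Set X) β := by
    intro β hβ
    by_contra hn
    exact notMem_of_lt_csInf hβ (OrderBot.bddBelow _) hn
  obtain ⟨x, hxS, hx⟩ := not_subset.1 h1
  rw [mem_cb] at hx
  push Not at hx
  obtain ⟨β, hβ, hn⟩ := hx (mem_univ x)
  exact ⟨x, hxS, fun h => hn (h.mono (principal_mono.2 (h2 β hβ)))⟩

omit [T2Space X] [Countable X] in
theorem finite_of_cb_one {S : Set X} (hS : IsClosed S) (h : cb S 1 = ∅) : S.Finite := by
  by_contra hinf
  obtain ⟨x, hx⟩ := Set.Infinite.exists_accPt_principal hinf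
  have : x ∈ cb S 1 := by
    rw [← zero_add (1 : Ordinal), mem_cb_add_one, cb_zero]
    exact ⟨(isClosed_iff_derivedSet_subset S).1 hS hx, hx⟩
  rw [h] at this
  exact this

theorem cb_one_of_finite {Y : Type u} [TopologicalSpace Y] [T1Space Y] {S : Set Y}
    (h : S.Finite) : cb S 1 = ∅ := by
  ext x
  simp only [mem_empty_iff_false, iff_false]
  intro hx
  rw [← zero_add (1 : Ordinal), mem_cb_add_one, cb_zero] at hx
  have h2 := hx.2
  rw [accPt_iff_nhds] at h2
  have h3 : (S \ {x})ᶜ ∈ 𝓝 x := (h.subset sdiff_subset).isClosed.isOpen_compl.mem_nhds (by simp)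
  obtain ⟨y, ⟨hy1, hy2⟩, hne⟩ := h2 _ h3
  exact hy1 ⟨hy2, hne⟩

/-- Rank. -/
theorem exists_rank {S : Set X} (hS : IsClosed S) (hne : S.Nonempty) :
    ∃ γ : Ordinal.{0}, (cb S γ).Nonempty ∧ (cb S γ).Finite := by
  obtain ⟨α₀, hα₀⟩ := exists_cb_empty (X := X)
  let P : Set Ordinal.{0} := {α | cb S α = ∅}
  have hP : P.Nonempty := ⟨α₀, subset_empty_iff.1 (hα₀ ▸ cb_mono (subset_univ S))⟩
  have h1 : cb S (sInf P) = ∅ := csInf_mem hP
  have h2 : ∀ β < sInf P, (cb S β).Nonempty := by
    intro β hβ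
    rw [nonempty_iff_ne_empty]
    exact fun h => notMem_of_lt_csInf hβ (OrderBot.bddBelow _) h
  rcases Ordinal.zero_or_succ_or_isSuccLimit (sInf P) with h | ⟨γ, hγ⟩ | h
  · rw [h, cb_zero] at h1
    exact absurd h1 hne.ne_empty
  · rw [Order.succ_eq_add_one] at hγ
    refine ⟨γ, h2 γ (by rw [← hγ]; exact Order.lt_add_one_iff.2 le_rfl), ?_⟩
    apply finite_of_cb_one (cb_closed hS)
    rw [← cb_add, hγ]
    exact h1
  · obtain ⟨β, hβ, hβ'⟩ := exists_cb_empty_of_limit hS.isCompact h h1
    exact absurd hβ' (h2 β hβ).ne_empty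

theorem cb_add_one_of_finite {Y : Type u} [TopologicalSpace Y] [T1Space Y] {S : Set Y}
    {γ : Ordinal.{0}} (h : (cb S γ).Finite) : cb S (γ + 1) = ∅ := by
  rw [cb_add]
  exact cb_one_of_finite h

end

end CpK
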