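import Mathlib
import Pool.Agent.CpK.ZeroDim

/-!
# The Mazurkiewicz–Sierpiński theorem for countable compact Hausdorff spaces
-/

open Set Filter Topology

namespace CpK

universe u v

/-- `M` and `N` are related by a continuous bijection. -/
def Hom {X : Type u} {Y : Type v} [TopologicalSpace X] [TopologicalSpace Y]
    (M : Set X) (N : Set Y) : Prop :=
  ∃ f : X → Y, ContinuousOn f M ∧ BijOn f M N

section hom

variable {X : Type u} {Y : Type v} [TopologicalSpace X] [CompactSpace X] [T2Space X]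
  [TopologicalSpace Y] [CompactSpace Y] [T2Space Y] [Nonempty X] [Nonempty Y]
  {M M₁ M₂ : Set X} {N N₁ N₂ : Set Y}

omit [T2Space X] [CompactSpace Y] [Nonempty Y] in
theorem Hom.symm (h : Hom M N) (hM : IsClosed M) : Hom N M := by
  obtain ⟨f, hf, hb⟩ := h
  have hinv := hb.invOn_invFunOn
  refine ⟨Function.invFunOn f M, ?_, hb.symm hinv.symm⟩
  rw [continuousOn_iff_isClosed]
  intro t ht
  refine ⟨f '' (t ∩ M), ?_, ?_⟩
  · exact ((ht.inter hM).isCompact.image_of_continuousOn (hf.mono inter_subset_right)).isClosed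
  · have hgm := (hb.symm hinv.symm).mapsTo
    ext y
    constructor
    · rintro ⟨h1, h2⟩
      exact ⟨⟨Function.invFunOn f M y, ⟨h1, hgm h2⟩, hinv.2 h2⟩, h2⟩
    · rintro ⟨⟨x, ⟨hx1, hx2⟩, rfl⟩, h2⟩
      refine ⟨?_, h2⟩
      change Function.invFunOn f M (f x) ∈ t
      rw [hinv.1 hx2]
      exact hx1

omit [CompactSpace X] [T2Space X] [CompactSpace Y] [T2Space Y] [Nonempty X] [Nonempty Y] in
theorem Hom.union (h₁ : Hom M₁ N₁) (h₂ : Hom M₂ N₂) (c₁ : IsClosed M₁) (c₂ : IsClosed M₂)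
    (hM : Disjoint M₁ M₂) (hN : Disjoint N₁ N₂) : Hom (M₁ ∪ M₂) (N₁ ∪ N₂) := by
  classical
  obtain ⟨f, hf, hfb⟩ := h₁
  obtain ⟨g, hg, hgb⟩ := h₂
  have e1 : EqOn (M₁.piecewise f g) f M₁ := piecewise_eqOn _ _ _
  have e2 : EqOn (M₁.piecewise f g) g M₂ := fun x hx =>
    piecewise_eq_of_notMem _ _ _ (fun h => (disjoint_left.1 hM h hx))
  refine ⟨M₁.piecewise f g, ?_, ?_⟩
  · exact (hf.congr e1).union_of_isClosed (hg.congr e2) c₁ c₂
  · have b1 := (e1.bijOn_iff).2 hfb
    have b2 := (e2.bijOn_iff).2 hgb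
    refine b1.union b2 ?_
    rintro x (hx | hx) y (hy | hy) hxy
    · exact b1.injOn hx hy hxy
    · exact absurd (b2.mapsTo hy) (fun h => disjoint_left.1 hN (b1.mapsTo hx) (hxy ▸ h))
    · exact absurd (b2.mapsTo hx) (fun h => disjoint_left.1 hN (b1.mapsTo hy) (hxy ▸ h))
    · exact b2.injOn hx hy hxy

omit [CompactSpace X] [T2Space X] [CompactSpace Y] [T2Space Y] [Nonempty X] in
theorem Hom.empty : Hom (∅ : Set X) (∅ : Set Y) :=
  ⟨fun _ => Classical.arbitrary Y, continuousOn_empty _, bijOn_empty _⟩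

omit [CompactSpace Y] [T2Space X] [Nonempty X] [Nonempty Y] in
theorem Hom.homeo (h : Hom (univ : Set X) (univ : Set Y)) : Nonempty (X ≃ₜ Y) := by
  obtain ⟨f, hf, hb⟩ := h
  rw [continuousOn_univ] at hf
  have hb' : Function.Bijective f := bijOn_univ.1 hb
  exact ⟨Continuous.homeoOfEquivCompactToT2 (f := Equiv.ofBijective f hb') hf⟩

end hom

/-- Prime clopen sets of rank `β` are homeomorphic. -/
def MSat (X : Type u) (Y : Type v) [TopologicalSpace X] [TopologicalSpace Y]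
    (β : Ordinal.{0}) : Prop :=
  ∀ (M : Set X) (N : Set Y) (p : X) (q : Y), IsClopen M → IsClopen N →
    cb M β = {p} → cb N β = {q} → Hom M N

section ms

variable {X : Type u} {Y : Type v}
  [TopologicalSpace X] [CompactSpace X] [T2Space X] [Countable X] [Nonempty X]
  [TopologicalSpace Y] [CompactSpace Y] [T2Space Y] [Countable Y] [Nonempty Y]

omit [Nonempty X] in
/-- isolating a point of a finite set by a clopen set. -/
theorem exists_clopen_isolating {F : Set X} (hF : F.Finite) {p : X} (hp : p ∈ F) :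
    ∃ U : Set X, IsClopen U ∧ F ∩ U = {p} := by
  have h3 : (F \ {p})ᶜ ∈ 𝓝 p := (hF.subset sdiff_subset).isClosed.isOpen_compl.mem_nhds (by simp)
  obtain ⟨U, hU, hpU, hUs⟩ := exists_clopen_nhd h3
  refine ⟨U, hU, ?_⟩
  ext x
  constructor
  · rintro ⟨h1, h2⟩
    by_contra hne
    exact hUs h2 ⟨h1, hne⟩
  · rintro rfl
    exact ⟨hp, hpU⟩

omit [Nonempty Y] in
theorem exists_prime_below {V : Set Y} (hV : IsClopen V) {q : Y} {γ β : Ordinal.{0}}
    (hq : q ∈ cb V γ) (hβ : β < γ) :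
    ∃ N : Set Y, IsClopen N ∧ N ⊆ V ∧ q ∉ N ∧ ∃ q' : Y, cb N β = {q'} := by
  have h1 := (mem_cb.1 hq).2 β hβ
  have hne : (cb V β \ {q}).Nonempty := by
    rw [accPt_iff_nhds] at h1
    obtain ⟨y, ⟨-, hy⟩, hne⟩ := h1 univ univ_mem
    exact ⟨y, hy, hne⟩
  obtain ⟨y, ⟨hy1, hy2⟩, hna⟩ := scattered hne
  rw [accPt_iff_nhds] at hna
  push Not at hna
  obtain ⟨U, hU, hUs⟩ := hna
  have hnb : U ∩ V ∩ {q}ᶜ ∈ 𝓝 y :=
    inter_mem (inter_mem hU (hV.isOpen.mem_nhds (cb_subset hy1))) (isOpen_compl_singleton.mem_nhds hy2)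
  obtain ⟨N, hN, hyN, hNs⟩ := exists_clopen_nhd hnb
  refine ⟨N, hN, fun x hx => (hNs hx).1.2, fun h => (hNs h).2 rfl, y, ?_⟩
  have h2 : V ∩ N = N := inter_eq_right.2 fun x hx => (hNs hx).1.2
  rw [← h2, cb_inter_open hN.isOpen]
  ext x
  constructor
  · rintro ⟨hx1, hx2⟩
    exact hUs x ⟨(hNs hx2).1.1, hx1, (hNs hx2).2⟩
  · rintro rfl
    exact ⟨hy1, hyN⟩

omit [Nonempty X] in
theorem exists_embed {γ : Ordinal.{0}} (hMS : ∀ β < γ, MSat X Y β) {M : Set X} (hM : IsClopen M)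
    (hMγ : cb M γ = ∅) {V : Set Y} (hV : IsClopen V) {q : Y} (hq : q ∈ cb V γ) :
    ∃ N : Set Y, IsClopen N ∧ N ⊆ V ∧ q ∉ N ∧ Hom M N := by
  classical
  rcases M.eq_empty_or_nonempty with rfl | hne
  · exact ⟨∅, isClopen_empty, empty_subset _, notMem_empty _, Hom.empty⟩
  obtain ⟨β, hβne, hβfin⟩ := exists_rank hM.isClosed hne
  have hβ : β < γ := by
    by_contra hle
    rw [not_lt] at hle
    have := cb_anti (S := M) hle
    rw [hMγ] at this
    exact hβne.ne_empty (subset_empty_iff.1 this)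
  have key : ∀ n : ℕ, ∀ M : Set X, IsClopen M → (cb M β).Finite → (cb M β).ncard = n + 1 →
      ∀ V : Set Y, IsClopen V → q ∈ cb V γ →
      ∃ N : Set Y, IsClopen N ∧ N ⊆ V ∧ q ∉ N ∧ Hom M N := by
    intro n
    induction n with
    | zero =>
      intro M hM hfin hcard V hV hq
      rw [zero_add, ncard_eq_one] at hcard
      obtain ⟨p, hp⟩ := hcard
      obtain ⟨N, hN, hNV, hqN, q', hq'⟩ := exists_prime_below hV hq hβ
      exact ⟨N, hN, hNV, hqN, hMS β hβ M N p q' hM hN hp hq'⟩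
    | succ n ih =>
      intro M hM hfin hcard V hV hq
      have hne : (cb M β).Nonempty := by
        rw [← ncard_pos hfin, hcard]
        omega
      obtain ⟨p, hp⟩ := hne
      obtain ⟨U, hU, hUp⟩ := exists_clopen_isolating hfin hp
      obtain ⟨N₁, hN₁, hN₁V, hqN₁, q', hq'⟩ := exists_prime_below hV hq hβ
      have h1 : Hom (M ∩ U) N₁ := by
        refine hMS β hβ _ _ p q' (hM.inter hU) hN₁ ?_ hq'
        rw [cb_inter_open hU.isOpen, hUp]
      have hpU : p ∈ U := by
        have : p ∈ cb M β ∩ U := by rw [hUp]; rfl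
        exact this.2
      have h2 : cb (M ∩ Uᶜ) β = cb M β \ {p} := by
        rw [cb_inter_open hU.compl.isOpen]
        ext x
        constructor
        · rintro ⟨hx1, hx2⟩
          exact ⟨hx1, fun h => hx2 (h ▸ hpU)⟩
        · rintro ⟨hx1, hx2⟩
          refine ⟨hx1, fun h => hx2 ?_⟩
          have : x ∈ cb M β ∩ U := ⟨hx1, h⟩
          rw [hUp] at this
          exact this
      have h3 : (cb (M ∩ Uᶜ) β).ncard = n + 1 := by
        rw [h2, ncard_sdiff_singleton_of_mem hp, hcard]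
        omega
      have h4 : q ∈ cb (V ∩ N₁ᶜ) γ := by
        rw [cb_inter_open hN₁.compl.isOpen]
        exact ⟨hq, hqN₁⟩
      obtain ⟨N₂, hN₂, hN₂V, hqN₂, hh⟩ := ih (M ∩ Uᶜ) (hM.inter hU.compl)
        (h2 ▸ hfin.subset sdiff_subset) h3 (V ∩ N₁ᶜ) (hV.inter hN₁.compl) h4
      refine ⟨N₁ ∪ N₂, hN₁.union hN₂, union_subset hN₁V (hN₂V.trans inter_subset_left), ?_, ?_⟩
      · rintro (h | h)
        · exact hqN₁ h
        · exact hqN₂ h
      · have := h1.union hh (hM.inter hU).isClosed (hM.inter hU.compl).isClosed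
          (by
            rw [disjoint_left]
            rintro x ⟨-, hx⟩ ⟨-, hx'⟩
            exact hx' hx)
          (by
            rw [disjoint_left]
            intro x hx hx'
            exact (hN₂V hx').2 hx)
        rwa [inter_union_compl] at this
  obtain ⟨m, hm⟩ : ∃ m, (cb M β).ncard = m + 1 := by
    refine ⟨(cb M β).ncard - 1, ?_⟩
    have : 0 < (cb M β).ncard := (ncard_pos hβfin).2 hβne
    omega
  exact key m M hM hβfin hm V hV hq

/-- One back-and-forth step. -/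
theorem bf_step {γ : Ordinal.{0}} (hMS : ∀ β < γ, MSat X Y β) (hMS' : ∀ β < γ, MSat Y X β)
    {V : Set X} {V' : Set Y} {p : X} {q : Y} (hV : IsClopen V) (hV' : IsClopen V')
    (hp : cb V γ = {p}) (hq : cb V' γ = {q}) {U : Set X} {W : Set Y} (hU : IsClopen U)
    (hW : IsClopen W) (hpU : p ∈ U) (hqW : q ∈ W) :
    ∃ (V₁ : Set X) (V₁' : Set Y), IsClopen V₁ ∧ IsClopen V₁' ∧ cb V₁ γ = {p} ∧ cb V₁' γ = {q} ∧
      V₁ ⊆ V ∩ U ∧ V₁' ⊆ V' ∩ W ∧ Hom (V \ V₁) (V' \ V₁') := by
  have hpV : p ∈ cb V γ := by rw [hp]; rfl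
  have hqV : q ∈ cb V' γ := by rw [hq]; rfl
  have hA : IsClopen (V ∩ Uᶜ) := hV.inter hU.compl
  have hAγ : cb (V ∩ Uᶜ) γ = ∅ := by
    rw [cb_inter_open hU.compl.isOpen, hp]
    ext x
    simp only [mem_inter_iff, mem_singleton_iff, mem_compl_iff, mem_empty_iff_false, iff_false,
      not_and, not_not]
    rintro rfl
    exact hpU
  obtain ⟨A', hA', hA'V, hqA', homA⟩ := exists_embed hMS hA hAγ hV' hqV
  have hB' : IsClopen ((V' ∩ A'ᶜ) ∩ Wᶜ) := (hV'.inter hA'.compl).inter hW.compl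
  have hB'γ : cb ((V' ∩ A'ᶜ) ∩ Wᶜ) γ = ∅ := by
    rw [cb_inter_open hW.compl.isOpen, cb_inter_open hA'.compl.isOpen, hq]
    ext x
    simp only [mem_inter_iff, mem_singleton_iff, mem_compl_iff, mem_empty_iff_false, iff_false,
      not_and, not_not, and_imp]
    rintro rfl -
    exact hqW
  have hpVU : p ∈ cb (V ∩ U) γ := by
    rw [cb_inter_open hU.isOpen]
    exact ⟨hpV, hpU⟩
  obtain ⟨B, hB, hBV, hpB, homB⟩ := exists_embed hMS' hB' hB'γ (hV.inter hU) hpVU
  have homB' := homB.symm hB'.isClosed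
  refine ⟨(V ∩ U) ∩ Bᶜ, (V' ∩ A'ᶜ) ∩ W, (hV.inter hU).inter hB.compl,
    (hV'.inter hA'.compl).inter hW, ?_, ?_, inter_subset_left, ?_, ?_⟩
  · rw [cb_inter_open hB.compl.isOpen, cb_inter_open hU.isOpen, hp]
    ext x
    simp only [mem_inter_iff, mem_singleton_iff, mem_compl_iff]
    constructor
    · rintro ⟨⟨h, -⟩, -⟩
      exact h
    · rintro rfl
      exact ⟨⟨rfl, hpU⟩, hpB⟩
  · rw [cb_inter_open hW.isOpen, cb_inter_open hA'.compl.isOpen, hq]
    ext x
    simp only [mem_inter_iff, mem_singleton_iff, mem_compl_iff]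
    constructor
    · rintro ⟨⟨h, -⟩, -⟩
      exact h
    · rintro rfl
      exact ⟨⟨rfl, hqA'⟩, hqW⟩
  · exact inter_subset_inter_left _ inter_subset_left
  · have h1 : V \ (V ∩ U ∩ Bᶜ) = (V ∩ Uᶜ) ∪ B := by
      ext x
      have := @hBV x
      simp only [Set.mem_sdiff, mem_inter_iff, mem_compl_iff, mem_union] at this ⊢
      tauto
    have h2 : V' \ (V' ∩ A'ᶜ ∩ W) = A' ∪ ((V' ∩ A'ᶜ) ∩ Wᶜ) := by
      ext x
      have := @hA'V x
      simp only [Set.mem_sdiff, mem_inter_iff, mem_compl_iff, mem_union] at this ⊢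
      tauto
    rw [h1, h2]
    refine homA.union homB' hA.isClosed hB.isClosed ?_ ?_
    · rw [disjoint_left]
      rintro x ⟨-, hx⟩ hxB
      exact hx (hBV hxB).2
    · rw [disjoint_left]
      rintro x hx ⟨⟨-, hx'⟩, -⟩
      exact hx' hx

omit [CompactSpace X] [T2Space X] [Countable X] [Nonempty X] [CompactSpace Y] [T2Space Y]
  [Countable Y] [Nonempty Y] in
/-- Gluing. -/
theorem glue {V : ℕ → Set X} {V' : ℕ → Set Y} {p : X} {q : Y} (hV : ∀ n, IsClopen (V n))
    (hanti : Antitone V) (hanti' : Antitone V')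
    (hp : ⋂ n, V n = {p}) (hq : ⋂ n, V' n = {q}) (hbase : ∀ W ∈ 𝓝 q, ∃ n, V' n ⊆ W)
    (hhom : ∀ n, Hom (V n \ V (n + 1)) (V' n \ V' (n + 1))) : Hom (V 0) (V' 0) := by
  classical
  choose F hFc hFb using hhom
  have hpV : ∀ n, p ∈ V n := fun n => by
    have : p ∈ ⋂ n, V n := by rw [hp]; rfl
    exact mem_iInter.1 this n
  have hqV : ∀ n, q ∈ V' n := fun n => by
    have : q ∈ ⋂ n, V' n := by rw [hq]; rfl
    exact mem_iInter.1 this n
  have loc : ∀ x ∈ V 0, x ≠ p → ∃ n, x ∈ V n \ V (n + 1) := by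
    intro x hx hne
    have h1 : ∃ n, x ∉ V n := by
      by_contra hcon
      push Not at hcon
      have : x ∈ ⋂ n, V n := mem_iInter.2 hcon
      rw [hp] at this
      exact hne this
    have h2 := Nat.find_spec h1
    have h3 : Nat.find h1 ≠ 0 := by
      intro h
      rw [h] at h2
      exact h2 hx
    obtain ⟨m, hm⟩ := Nat.exists_eq_succ_of_ne_zero h3
    refine ⟨m, ?_, ?_⟩
    · by_contra hcon
      exact Nat.find_min h1 (by omega) hcon
    · rw [hm] at h2
      exact h2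
  have loc' : ∀ x ∈ V' 0, x ≠ q → ∃ n, x ∈ V' n \ V' (n + 1) := by
    intro x hx hne
    have h1 : ∃ n, x ∉ V' n := by
      by_contra hcon
      push Not at hcon
      have : x ∈ ⋂ n, V' n := mem_iInter.2 hcon
      rw [hq] at this
      exact hne this
    have h2 := Nat.find_spec h1
    have h3 : Nat.find h1 ≠ 0 := by
      intro h
      rw [h] at h2
      exact h2 hx
    obtain ⟨m, hm⟩ := Nat.exists_eq_succ_of_ne_zero h3
    refine ⟨m, ?_, ?_⟩
    · by_contra hcon
      exact Nat.find_min h1 (by omega) hcon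
    · rw [hm] at h2
      exact h2
  have uniq : ∀ x m n, x ∈ V m \ V (m + 1) → x ∈ V n → n ≤ m := by
    intro x m n hm hn
    by_contra hlt
    exact hm.2 (hanti (by omega) hn)
  have uniq' : ∀ x m n, x ∈ V' m \ V' (m + 1) → x ∈ V' n → n ≤ m := by
    intro x m n hm hn
    by_contra hlt
    exact hm.2 (hanti' (by omega) hn)
  let f : X → Y := fun x => if h : ∃ n, x ∈ V n \ V (n + 1) then F h.choose x else q
  have hf : ∀ n x, x ∈ V n \ V (n + 1) → f x = F n x := by
    intro n x hx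
    have hex : ∃ n, x ∈ V n \ V (n + 1) := ⟨n, hx⟩
    have h1 : hex.choose = n :=
      le_antisymm (uniq x n _ hx hex.choose_spec.1) (uniq x _ n hex.choose_spec hx.1)
    simp only [f, dif_pos hex, h1]
  have hfp : f p = q := by
    have : ¬ ∃ n, p ∈ V n \ V (n + 1) := by
      rintro ⟨n, hn⟩
      exact hn.2 (hpV _)
    simp only [f, dif_neg this]
  have hfV : ∀ n, MapsTo f (V n) (V' n) := by
    intro n x hx
    by_cases hxp : x = p
    · rw [hxp, hfp]
      exact hqV n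
    · obtain ⟨m, hm⟩ := loc x (hanti (Nat.zero_le n) hx) hxp
      rw [hf m x hm]
      exact hanti' (uniq x m n hm hx) ((hFb m).mapsTo hm).1
  refine ⟨f, ?_, ?_⟩
  · intro x hx
    by_cases hxp : x = p
    · subst hxp
      apply ContinuousAt.continuousWithinAt
      rw [ContinuousAt, hfp]
      intro W hW
      obtain ⟨n, hn⟩ := hbase W hW
      exact mem_map.2 (mem_of_superset ((hV n).isOpen.mem_nhds (hpV n))
        (fun y hy => hn (hfV n hy)))
    · obtain ⟨m, hm⟩ := loc x hx hxp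
      have hopen : V m \ V (m + 1) ∈ 𝓝 x :=
        ((hV m).isOpen.sdiff (hV (m + 1)).isClosed).mem_nhds hm
      have h1 : ContinuousAt (F m) x := (hFc m).continuousAt hopen
      have h2 : f =ᶠ[𝓝 x] F m := by
        filter_upwards [hopen] with y hy
        exact hf m y hy
      exact (h1.congr h2.symm).continuousWithinAt
  · refine ⟨hfV 0, ?_, ?_⟩
    · intro x hx y hy hxy
      by_cases hxp : x = p
      · by_cases hyp : y = p
        · rw [hxp, hyp]
        · obtain ⟨m, hm⟩ := loc y hy hyp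
          exfalso
          rw [hxp, hfp, hf m y hm] at hxy
          exact ((hFb m).mapsTo hm).2 (hxy ▸ hqV _)
      · obtain ⟨n, hn⟩ := loc x hx hxp
        by_cases hyp : y = p
        · exfalso
          rw [hyp, hfp, hf n x hn] at hxy
          exact ((hFb n).mapsTo hn).2 (hxy ▸ hqV _)
        · obtain ⟨m, hm⟩ := loc y hy hyp
          rw [hf n x hn, hf m y hm] at hxy
          have h1 := (hFb n).mapsTo hn
          have h2 := (hFb m).mapsTo hm
          have hnm : n = m :=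
            le_antisymm (uniq' _ m n h2 (hxy ▸ h1.1)) (uniq' _ n m h1 (hxy ▸ h2.1))
          subst hnm
          exact (hFb n).injOn hn hm hxy
    · intro y hy
      by_cases hyq : y = q
      · exact ⟨p, hpV 0, by rw [hfp, hyq]⟩
      · obtain ⟨n, hn⟩ := loc' y hy hyq
        obtain ⟨x, hx, rfl⟩ := (hFb n).surjOn hn
        exact ⟨x, hanti (Nat.zero_le n) hx.1, hf n x hx⟩

theorem msat (γ : Ordinal.{0}) : MSat X Y γ ∧ MSat Y X γ := by
  induction γ using WellFoundedLT.induction with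
  | ind γ ih =>
    have main : MSat X Y γ := by
      intro M N p q hM hN hp hq
      obtain ⟨U, hU, hpU, hUb⟩ := exists_clopen_basis p
      obtain ⟨W, hW, hqW, hWb⟩ := exists_clopen_basis q
      let St := {VV : Set X × Set Y //
        IsClopen VV.1 ∧ IsClopen VV.2 ∧ cb VV.1 γ = {p} ∧ cb VV.2 γ = {q}}
      have step : ∀ (n : ℕ) (s : St), ∃ t : St, t.1.1 ⊆ s.1.1 ∩ U n ∧ t.1.2 ⊆ s.1.2 ∩ W n ∧
          Hom (s.1.1 \ t.1.1) (s.1.2 \ t.1.2) := by
        rintro n ⟨⟨V, V'⟩, h1, h2, h3, h4⟩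
        obtain ⟨V₁, V₁', a1, a2, a3, a4, a5, a6, a7⟩ :=
          bf_step (fun β hβ => (ih β hβ).1) (fun β hβ => (ih β hβ).2) h1 h2 h3 h4
            (hU n) (hW n) (hpU n) (hqW n)
        exact ⟨⟨(V₁, V₁'), a1, a2, a3, a4⟩, a5, a6, a7⟩
      choose nxt hnxt using step
      let s : ℕ → St := fun n => Nat.rec ⟨(M, N), hM, hN, hp, hq⟩ (fun n t => nxt n t) n
      have hs : ∀ n, s (n + 1) = nxt n (s n) := fun n => rfl
      have hstep : ∀ n, (s (n + 1)).1.1 ⊆ (s n).1.1 ∩ U n ∧ (s (n + 1)).1.2 ⊆ (s n).1.2 ∩ W n ∧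
          Hom ((s n).1.1 \ (s (n + 1)).1.1) ((s n).1.2 \ (s (n + 1)).1.2) := by
        intro n
        rw [hs n]
        exact hnxt n (s n)
      have hpm : ∀ n, p ∈ (s n).1.1 := fun n => by
        have : p ∈ cb (s n).1.1 γ := by rw [(s n).2.2.2.1]; rfl
        exact cb_subset this
      have hqm : ∀ n, q ∈ (s n).1.2 := fun n => by
        have : q ∈ cb (s n).1.2 γ := by rw [(s n).2.2.2.2]; rfl
        exact cb_subset this
      refine glue (V := fun n => (s n).1.1) (V' := fun n => (s n).1.2) (p := p) (q := q)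
        (fun n => (s n).2.1) ?_ ?_ ?_ ?_ ?_ (fun n => (hstep n).2.2)
      · exact antitone_nat_of_succ_le fun n => (hstep n).1.trans inter_subset_left
      · exact antitone_nat_of_succ_le fun n => (hstep n).2.1.trans inter_subset_left
      · apply Subset.antisymm
        · intro x hx
          by_contra hne
          obtain ⟨n, hn⟩ := hUb {x}ᶜ (isOpen_compl_singleton.mem_nhds (fun h => hne h.symm))
          exact hn ((hstep n).1 (mem_iInter.1 hx (n + 1))).2 rfl
        · rintro _ rfl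
          exact mem_iInter.2 hpm
      · apply Subset.antisymm
        · intro x hx
          by_contra hne
          obtain ⟨n, hn⟩ := hWb {x}ᶜ (isOpen_compl_singleton.mem_nhds (fun h => hne h.symm))
          exact hn ((hstep n).2.1 (mem_iInter.1 hx (n + 1))).2 rfl
        · rintro _ rfl
          exact mem_iInter.2 hqm
      · intro Z hZ
        obtain ⟨n, hn⟩ := hWb Z hZ
        exact ⟨n + 1, fun y hy => hn ((hstep n).2.1 hy).2⟩
    exact ⟨main, fun M N p q hM hN hp hq =>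
      (main N M q p hN hM hq hp).symm hN.isClosed⟩

/-- Mazurkiewicz–Sierpiński: clopen sets with the same Cantor–Bendixson type are homeomorphic. -/
theorem ms_general {γ : Ordinal.{0}} (n : ℕ) : ∀ (M : Set X) (N : Set Y), IsClopen M → IsClopen N →
    (cb M γ).Finite → (cb N γ).Finite → (cb M γ).ncard = n + 1 → (cb N γ).ncard = n + 1 →
    Hom M N := by
  induction n with
  | zero =>
    intro M N hM hN _ _ h1 h2
    rw [zero_add, ncard_eq_one] at h1 h2
    obtain ⟨p, hp⟩ := h1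
    obtain ⟨q, hq⟩ := h2
    exact (msat γ).1 M N p q hM hN hp hq
  | succ n ih =>
    intro M N hM hN hf hf' h1 h2
    obtain ⟨p, hp⟩ : (cb M γ).Nonempty := by
      rw [← ncard_pos hf, h1]; omega
    obtain ⟨q, hq⟩ : (cb N γ).Nonempty := by
      rw [← ncard_pos hf', h2]; omega
    obtain ⟨U, hU, hUp⟩ := exists_clopen_isolating hf hp
    obtain ⟨W, hW, hWq⟩ := exists_clopen_isolating hf' hq
    have hpU : p ∈ U := by
      have : p ∈ cb M γ ∩ U := by rw [hUp]; rfl
      exact this.2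
    have hqW : q ∈ W := by
      have : q ∈ cb N γ ∩ W := by rw [hWq]; rfl
      exact this.2
    have a1 : Hom (M ∩ U) (N ∩ W) := by
      refine (msat γ).1 _ _ p q (hM.inter hU) (hN.inter hW) ?_ ?_
      · rw [cb_inter_open hU.isOpen, hUp]
      · rw [cb_inter_open hW.isOpen, hWq]
    have b1 : cb (M ∩ Uᶜ) γ = cb M γ \ {p} := by
      rw [cb_inter_open hU.compl.isOpen]
      ext x
      constructor
      · rintro ⟨hx1, hx2⟩
        exact ⟨hx1, fun h => hx2 (h ▸ hpU)⟩
      · rintro ⟨hx1, hx2⟩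
        refine ⟨hx1, fun h => hx2 ?_⟩
        have : x ∈ cb M γ ∩ U := ⟨hx1, h⟩
        rw [hUp] at this
        exact this
    have b2 : cb (N ∩ Wᶜ) γ = cb N γ \ {q} := by
      rw [cb_inter_open hW.compl.isOpen]
      ext x
      constructor
      · rintro ⟨hx1, hx2⟩
        exact ⟨hx1, fun h => hx2 (h ▸ hqW)⟩
      · rintro ⟨hx1, hx2⟩
        refine ⟨hx1, fun h => hx2 ?_⟩
        have : x ∈ cb N γ ∩ W := ⟨hx1, h⟩
        rw [hWq] at this
        exact this
    have a2 : Hom (M ∩ Uᶜ) (N ∩ Wᶜ) := by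
      refine ih _ _ (hM.inter hU.compl) (hN.inter hW.compl) ?_ ?_ ?_ ?_
      · rw [b1]; exact hf.subset sdiff_subset
      · rw [b2]; exact hf'.subset sdiff_subset
      · rw [b1, ncard_sdiff_singleton_of_mem hp, h1]; omega
      · rw [b2, ncard_sdiff_singleton_of_mem hq, h2]; omega
    have := a1.union a2 (hM.inter hU).isClosed (hM.inter hU.compl).isClosed
      (by
        rw [disjoint_left]
        rintro x ⟨-, hx⟩ ⟨-, hx'⟩
        exact hx' hx)
      (by
        rw [disjoint_left]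
        rintro x ⟨-, hx⟩ ⟨-, hx'⟩
        exact hx' hx)
    rwa [inter_union_compl, inter_union_compl] at this

omit [Nonempty X] [Nonempty Y] in
theorem ms_homeo {γ : Ordinal.{0}} (h1 : (cb (univ : Set X) γ).Finite)
    (h2 : (cb (univ : Set Y) γ).Finite) (h3 : (cb (univ : Set X) γ).Nonempty)
    (h4 : (cb (univ : Set X) γ).ncard = (cb (univ : Set Y) γ).ncard) : Nonempty (X ≃ₜ Y) := by
  have : Nonempty X := ⟨h3.some⟩
  have hpos : 0 < (cb (univ : Set X) γ).ncard := (ncard_pos h1).2 h3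
  have h5 : (cb (univ : Set Y) γ).Nonempty := by
    rw [← ncard_pos h2, ← h4]
    exact hpos
  have : Nonempty Y := ⟨h5.some⟩
  obtain ⟨n, hn⟩ : ∃ n, (cb (univ : Set X) γ).ncard = n + 1 :=
    ⟨(cb (univ : Set X) γ).ncard - 1, by omega⟩
  exact (ms_general (γ := γ) n univ univ isClopen_univ isClopen_univ h1 h2 hn (h4 ▸ hn)).homeo

end ms

end CpK
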