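import Mathlib
import Pool.Agent.CpK.MS
import Pool.Agent.CpK.Defs

/-!
# Positive linear homeomorphisms of `C_p`-spaces: the basic moves
-/

open Set Filter Topology

namespace CpK

universe u v w

section pw

variable {K : Type u} [TopologicalSpace K] {L : Type v} [TopologicalSpace L]
  {M : Type w} [TopologicalSpace M]

/-- continuity of a functional for the pointwise topology -/
def PwCont (φ : C(K, ℝ) → ℝ) : Prop := @Continuous _ _ (pwTop K) _ φ

theorem PwCont.eval (x : K) : PwCont (fun f : C(K, ℝ) => f x) := by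
  let _ := pwTop K
  have h : Continuous (fun f : C(K, ℝ) => (f : K → ℝ)) := continuous_induced_dom
  exact (continuous_apply x).comp h

theorem PwCont.add {φ ψ : C(K, ℝ) → ℝ} (h1 : PwCont φ) (h2 : PwCont ψ) :
    PwCont (fun f => φ f + ψ f) := by
  let _ := pwTop K
  exact Continuous.add h1 h2

theorem PwCont.sub {φ ψ : C(K, ℝ) → ℝ} (h1 : PwCont φ) (h2 : PwCont ψ) :
    PwCont (fun f => φ f - ψ f) := by
  let _ := pwTop K
  exact Continuous.sub h1 h2

theorem PwCont.sum {ι : Type*} (s : Finset ι) {φ : ι → C(K, ℝ) → ℝ} (h1 : ∀ i, PwCont (φ i)) :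
    PwCont (fun f => ∑ i ∈ s, φ i f) := by
  let _ := pwTop K
  exact continuous_finsetSum s (fun i _ => h1 i)

theorem continuous_pw_iff {T : C(K, ℝ) → C(L, ℝ)} :
    @Continuous _ _ (pwTop K) (pwTop L) T ↔ ∀ y, PwCont (fun f => T f y) := by
  have h : @Continuous _ _ (pwTop K) (pwTop L) T ↔
      @Continuous _ _ (pwTop K) _ (fun f => (T f : L → ℝ)) := by
    let _ := pwTop K
    exact continuous_induced_rng
  rw [h]
  let _ := pwTop K
  exact continuous_pi_iff

theorem mkR (A : C(K, ℝ) →ₗ[ℝ] C(L, ℝ)) (B : C(L, ℝ) → C(K, ℝ)) (h1 : ∀ f, B (A f) = f)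
    (h2 : ∀ g, A (B g) = g) (hpos : ∀ f, 0 ≤ f → 0 ≤ A f) (hA : ∀ y, PwCont (fun f => A f y))
    (hB : ∀ x, PwCont (fun g => B g x)) : PosLinHomeoCp K L := by
  let T : C(K, ℝ) ≃ₗ[ℝ] C(L, ℝ) := { A with
    invFun := B
    left_inv := h1
    right_inv := h2 }
  exact ⟨T, hpos, continuous_pw_iff.2 hA, continuous_pw_iff.2 hB⟩

theorem PosLinHomeoCp.of_homeo (e : K ≃ₜ L) : PosLinHomeoCp K L := by
  refine mkR (K := K) (L := L)
    { toFun := fun f => f.comp ⟨e.symm, e.symm.continuous⟩
      map_add' := fun f g => rfl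
      map_smul' := fun c f => rfl } (fun g => g.comp ⟨e, e.continuous⟩) ?_ ?_ ?_ ?_ ?_
  · intro f
    ext x
    simp
  · intro f
    ext x
    simp
  · intro f hf y
    exact hf _
  · intro y
    exact PwCont.eval _
  · intro x
    exact PwCont.eval _

theorem PosLinHomeoCp.trans (h1 : PosLinHomeoCp K L) (h2 : PosLinHomeoCp L M) :
    PosLinHomeoCp K M := by
  obtain ⟨T, hT, hTc, hTs⟩ := h1
  obtain ⟨S, hS, hSc, hSs⟩ := h2
  refine ⟨T.trans S, fun f hf => hS _ (hT f hf), ?_, ?_⟩
  · let _ := pwTop K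
    let _ := pwTop L
    let _ := pwTop M
    exact hSc.comp hTc
  · let _ := pwTop K
    let _ := pwTop L
    let _ := pwTop M
    exact hTs.comp hSs

end pw

/-- Data of the quotient `K / Z`. -/
structure Collapse (K : Type u) [TopologicalSpace K] (Z : Set K) (P : Type u)
    [TopologicalSpace P] where
  q : K → P
  s : P → K
  p : P
  quot : IsQuotientMap q
  sec : ∀ y, q (s y) = y
  base : ∀ x, q x = p ↔ x ∈ Z
  inj : ∀ x y, q x = q y → x = y ∨ (x ∈ Z ∧ y ∈ Z)
  cb_iff : ∀ x, x ∉ Z → ∀ α : Ordinal.{0}, q x ∈ cb (univ : Set P) α ↔ x ∈ cb (univ : Set K) α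

theorem exists_collapse {K : Type u} [TopologicalSpace K] [CompactSpace K] [T2Space K]
    [Countable K] {Z : Set K} (hZ : IsClosed Z) (hne : Z.Nonempty) :
    ∃ (P : Type u) (_ : TopologicalSpace P) (_ : CompactSpace P) (_ : T2Space P)
      (_ : Countable P), Nonempty (Collapse K Z P) := by
  classical
  have hopen : IsOpen Zᶜ := hZ.isOpen_compl
  have hlc : LocallyCompactSpace (Zᶜ : Set K) := hopen.locallyCompactSpace
  let q : K → OnePoint (Zᶜ : Set K) := fun x =>
    if h : x ∈ Zᶜ then ((⟨x, h⟩ : (Zᶜ : Set K)) : OnePoint (Zᶜ : Set K)) else OnePoint.infty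
  have hq1 : ∀ (x : K) (h : x ∈ Zᶜ), q x = ((⟨x, h⟩ : (Zᶜ : Set K)) : OnePoint (Zᶜ : Set K)) := by
    intro x h
    simp only [q, dif_pos h]
  have hq2 : ∀ (x : K), x ∈ Z → q x = OnePoint.infty := by
    intro x h
    have : x ∉ Zᶜ := fun h' => h' h
    simp only [q, dif_neg this]
  have hbase : ∀ x, q x = OnePoint.infty ↔ x ∈ Z := by
    intro x
    constructor
    · intro h
      by_contra hx
      rw [hq1 x hx] at h
      exact OnePoint.coe_ne_infty _ h
    · exact hq2 x
  have hcont : Continuous q := by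
    rw [continuous_def]
    intro V hV
    by_cases hinf : OnePoint.infty ∈ V
    · rw [OnePoint.isOpen_iff_of_mem hinf] at hV
      have h1 : IsCompact (Subtype.val '' ((fun x : (Zᶜ : Set K) => (x : OnePoint (Zᶜ : Set K))) ⁻¹' V)ᶜ) :=
        hV.2.image continuous_subtype_val
      have h2 : (q ⁻¹' V)ᶜ = Subtype.val ''
          ((fun x : (Zᶜ : Set K) => (x : OnePoint (Zᶜ : Set K))) ⁻¹' V)ᶜ := by
        ext x
        constructor
        · intro hx
          have hxZ : x ∈ Zᶜ := by
            intro hxZ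
            apply hx
            change q x ∈ V
            rw [hq2 x hxZ]
            exact hinf
          refine ⟨⟨x, hxZ⟩, ?_, rfl⟩
          intro hm
          apply hx
          change q x ∈ V
          rw [hq1 x hxZ]
          exact hm
        · rintro ⟨⟨x, hxZ⟩, hx, rfl⟩ hm
          apply hx
          change q x ∈ V at hm
          rw [hq1 x hxZ] at hm
          exact hm
      rw [← isClosed_compl_iff, h2]
      exact h1.isClosed
    · rw [OnePoint.isOpen_iff_of_notMem hinf] at hV
      have h2 : q ⁻¹' V = Subtype.val ''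
          ((fun x : (Zᶜ : Set K) => (x : OnePoint (Zᶜ : Set K))) ⁻¹' V) := by
        ext x
        constructor
        · intro hx
          have hxZ : x ∈ Zᶜ := by
            intro hxZ
            change q x ∈ V at hx
            rw [hq2 x hxZ] at hx
            exact hinf hx
          refine ⟨⟨x, hxZ⟩, ?_, rfl⟩
          change q x ∈ V at hx
          rw [hq1 x hxZ] at hx
          exact hx
        · rintro ⟨⟨x, hxZ⟩, hx, rfl⟩
          change q x ∈ V
          rw [hq1 x hxZ]
          exact hx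
      rw [h2]
      exact hopen.isOpenMap_subtype_val _ hV
  have hsurj : Function.Surjective q := by
    intro y
    induction y using OnePoint.rec with
    | infty => exact ⟨hne.some, hq2 _ hne.some_mem⟩
    | coe x => exact ⟨x.1, hq1 x.1 x.2⟩
  have hcount : Countable (OnePoint (Zᶜ : Set K)) := hsurj.countable
  refine ⟨OnePoint (Zᶜ : Set K), inferInstance, inferInstance, inferInstance, hcount, ⟨?_⟩⟩
  refine
    { q := q
      s := Function.surjInv hsurj
      p := OnePoint.infty
      quot := hcont.isClosedMap.isQuotientMap hcont hsurj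
      sec := Function.surjInv_eq hsurj
      base := hbase
      inj := ?_
      cb_iff := ?_ }
  · intro x y hxy
    by_cases hx : x ∈ Z
    · right
      refine ⟨hx, ?_⟩
      rw [← hbase, ← hxy, hbase]
      exact hx
    · have hy : y ∉ Z := by
        intro hy
        apply hx
        rw [← hbase, hxy, hbase]
        exact hy
      left
      rw [hq1 x hx, hq1 y hy] at hxy
      exact congrArg Subtype.val (OnePoint.coe_injective hxy)
  · intro x hx α
    have e1 : IsOpenEmbedding (fun x : (Zᶜ : Set K) => (x : OnePoint (Zᶜ : Set K))) :=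
      OnePoint.isOpenEmbedding_coe
    have h1 : x ∈ cb (univ : Set K) α ↔ (⟨x, hx⟩ : (Zᶜ : Set K)) ∈ cb (univ : Set (Zᶜ : Set K)) α := by
      have h2 : cb (univ ∩ Zᶜ) α = cb (univ : Set K) α ∩ Zᶜ := cb_inter_open hopen
      rw [univ_inter, ← cb_subtype] at h2
      constructor
      · intro h
        have h3 : x ∈ cb (univ : Set K) α ∩ Zᶜ := ⟨h, hx⟩
        rw [← h2] at h3
        obtain ⟨y, hy, rfl⟩ := h3
        exact hy
      · intro h
        have h3 : x ∈ Subtype.val '' cb (univ : Set (Zᶜ : Set K)) α := ⟨_, h, rfl⟩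
        rw [h2] at h3
        exact h3.1
    have h4 : q x ∈ cb (univ : Set (OnePoint (Zᶜ : Set K))) α ↔
        (⟨x, hx⟩ : (Zᶜ : Set K)) ∈ cb (univ : Set (Zᶜ : Set K)) α := by
      have h2 : cb (univ ∩ range (fun x : (Zᶜ : Set K) => (x : OnePoint (Zᶜ : Set K)))) α =
        cb univ α ∩ range (fun x : (Zᶜ : Set K) => (x : OnePoint (Zᶜ : Set K))) :=
        cb_inter_open e1.isOpen_range
      rw [univ_inter, ← image_univ, cb_image e1.isEmbedding] at h2
      rw [hq1 x hx]
      constructor
      · intro h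
        have h3 : ((⟨x, hx⟩ : (Zᶜ : Set K)) : OnePoint (Zᶜ : Set K)) ∈ cb univ α ∩
            (fun x : (Zᶜ : Set K) => (x : OnePoint (Zᶜ : Set K))) '' univ := ⟨h, ⟨_, trivial, rfl⟩⟩
        rw [← h2] at h3
        obtain ⟨y, hy, hyx⟩ := h3
        rwa [← OnePoint.coe_injective hyx]
      · intro h
        have h3 : ((⟨x, hx⟩ : (Zᶜ : Set K)) : OnePoint (Zᶜ : Set K)) ∈
          (fun x : (Zᶜ : Set K) => (x : OnePoint (Zᶜ : Set K))) '' (cb univ α) := ⟨_, h, rfl⟩
        rw [h2] at h3
        exact h3.1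
    rw [h1, h4]

theorem Collapse.p_mem {K : Type u} [TopologicalSpace K] {Z : Set K} {P : Type u}
    [TopologicalSpace P] (C : Collapse K Z P) {z : K} (hz : z ∈ Z) {α : Ordinal.{0}}
    (h : ∀ β < α, ∀ U ∈ 𝓝 z, ∃ x ∈ U, x ∉ Z ∧ x ∈ cb (univ : Set K) β) :
    C.p ∈ cb (univ : Set P) α := by
  rw [mem_cb]
  refine ⟨trivial, fun β hβ => ?_⟩
  rw [accPt_iff_nhds]
  intro V hV
  have h1 : C.q ⁻¹' V ∈ 𝓝 z := by
    apply C.quot.continuous.continuousAt
    rw [(C.base z).2 hz]
    exact hV
  obtain ⟨x, hxU, hxZ, hx⟩ := h β hβ _ h1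
  exact ⟨C.q x, ⟨hxU, (C.cb_iff x hxZ β).2 hx⟩, fun h => hxZ ((C.base x).1 h)⟩

theorem cb_sum {A : Type u} {B : Type v} [TopologicalSpace A] [TopologicalSpace B]
    (α : Ordinal.{0}) : cb (univ : Set (A ⊕ B)) α =
      Sum.inl '' (cb univ α) ∪ Sum.inr '' (cb univ α) := by
  rw [← cb_image IsEmbedding.inl, ← cb_image IsEmbedding.inr, ← cb_union]
  · simp
  · rw [image_univ]; exact isClosed_range_inl
  · rw [image_univ]; exact isClosed_range_inr

section M2

variable {L : Type u} [TopologicalSpace L] {Z : Set L} {P : Type u} [TopologicalSpace P]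

/-- The second move. -/
theorem move_two (C : Collapse L Z P) (r : L → Z) (hr : Continuous r) (hrz : ∀ z : Z, r z = z) :
    PosLinHomeoCp (P ⊕ Z) (L ⊕ Unit) := by
  have hqz : ∀ z : Z, C.q z = C.p := fun z => (C.base z).2 z.2
  have key : ∀ (h : C(L ⊕ Unit, ℝ)), Continuous (fun y : P =>
      h (Sum.inl (C.s y)) - h (Sum.inl (r (C.s y) : L)) + h (Sum.inr ())) := by
    intro h
    rw [C.quot.continuous_iff]
    have : (fun y : P => h (Sum.inl (C.s y)) - h (Sum.inl (r (C.s y) : L)) + h (Sum.inr ())) ∘ C.q =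
        fun x => h (Sum.inl x) - h (Sum.inl (r x : L)) + h (Sum.inr ()) := by
      ext x
      simp only [Function.comp_apply]
      rcases C.inj (C.s (C.q x)) x (C.sec _) with he | ⟨h1, h2⟩
      · rw [he]
      · have e1 : (r (C.s (C.q x)) : L) = C.s (C.q x) := congrArg Subtype.val (hrz ⟨_, h1⟩)
        have e2 : (r x : L) = x := congrArg Subtype.val (hrz ⟨_, h2⟩)
        rw [e1, e2]
        ring
    rw [this]
    fun_prop
  refine mkR (K := P ⊕ Z) (L := L ⊕ Unit)
    { toFun := fun g => ⟨Sum.elim (fun y => g (Sum.inl (C.q y)) + g (Sum.inr (r y)))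
        (fun _ => g (Sum.inl C.p)), ?_⟩
      map_add' := ?_
      map_smul' := ?_ }
    (fun h => ⟨Sum.elim (fun y : P => h (Sum.inl (C.s y)) - h (Sum.inl (r (C.s y) : L)) +
      h (Sum.inr ())) (fun z : Z => h (Sum.inl (z : L)) - h (Sum.inr ())), ?_⟩) ?_ ?_ ?_ ?_ ?_
  · have := C.quot.continuous
    exact Continuous.sumElim (by fun_prop) (by fun_prop)
  · intro f g
    ext x
    rcases x with x | x
    · simp only [ContinuousMap.add_apply, ContinuousMap.coe_mk, Sum.elim_inl]
      ring
    · simp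
  · intro c f
    ext x
    rcases x with x | x
    · simp only [ContinuousMap.smul_apply, ContinuousMap.coe_mk, Sum.elim_inl, smul_eq_mul,
        RingHom.id_apply]
      ring
    · simp
  · exact Continuous.sumElim (key h) (by fun_prop)
  · intro g
    ext x
    rcases x with y | z
    · simp only [LinearMap.coe_mk, AddHom.coe_mk, ContinuousMap.coe_mk, Sum.elim_inl,
        Sum.elim_inr, C.sec, hqz, hrz]
      ring
    · simp only [LinearMap.coe_mk, AddHom.coe_mk, ContinuousMap.coe_mk, Sum.elim_inl,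
        Sum.elim_inr, hqz, hrz]
      ring
  · intro h
    ext x
    rcases x with x | x
    · simp only [LinearMap.coe_mk, AddHom.coe_mk, ContinuousMap.coe_mk, Sum.elim_inl,
        Sum.elim_inr]
      rcases C.inj (C.s (C.q x)) x (C.sec _) with he | ⟨h1, h2⟩
      · rw [he]
        ring
      · have e1 : (r (C.s (C.q x)) : L) = C.s (C.q x) := congrArg Subtype.val (hrz ⟨_, h1⟩)
        have e2 : (r x : L) = x := congrArg Subtype.val (hrz ⟨_, h2⟩)
        rw [e1, e2]
        ring
    · simp only [LinearMap.coe_mk, AddHom.coe_mk, ContinuousMap.coe_mk, Sum.elim_inl,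
        Sum.elim_inr]
      have h1 : C.s C.p ∈ Z := (C.base _).1 (C.sec _)
      have e1 : (r (C.s C.p) : L) = C.s C.p := congrArg Subtype.val (hrz ⟨_, h1⟩)
      rw [e1]
      ring
  · intro f hf x
    rcases x with x | x
    · exact add_nonneg (hf _) (hf _)
    · exact hf _
  · rintro (x | x)
    · exact (PwCont.eval _).add (PwCont.eval _)
    · exact PwCont.eval _
  · rintro (x | x)
    · exact ((PwCont.eval _).sub (PwCont.eval _)).add (PwCont.eval _)
    · exact (PwCont.eval _).sub (PwCont.eval _)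

/-- The first move. -/
theorem move_one [Fintype Z] (C : Collapse L Z P) (r : L → Z) (hr : Continuous r)
    (hrz : ∀ z : Z, r z = z) : PosLinHomeoCp (L ⊕ Unit) (P ⊕ Z) := by
  have hqz : ∀ z : Z, C.q z = C.p := fun z => (C.base z).2 z.2
  have key : ∀ (h : C(L ⊕ Unit, ℝ)), Continuous (fun y : P =>
      h (Sum.inl (C.s y)) - h (Sum.inl (r (C.s y) : L)) +
        (∑ t : Z, h (Sum.inl (t : L)) + h (Sum.inr ()))) := by
    intro h
    rw [C.quot.continuous_iff]
    have : (fun y : P => h (Sum.inl (C.s y)) - h (Sum.inl (r (C.s y) : L)) +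
        (∑ t : Z, h (Sum.inl (t : L)) + h (Sum.inr ()))) ∘ C.q =
        fun x => h (Sum.inl x) - h (Sum.inl (r x : L)) +
          (∑ t : Z, h (Sum.inl (t : L)) + h (Sum.inr ())) := by
      ext x
      simp only [Function.comp_apply]
      rcases C.inj (C.s (C.q x)) x (C.sec _) with he | ⟨h1, h2⟩
      · rw [he]
      · have e1 : (r (C.s (C.q x)) : L) = C.s (C.q x) := congrArg Subtype.val (hrz ⟨_, h1⟩)
        have e2 : (r x : L) = x := congrArg Subtype.val (hrz ⟨_, h2⟩)
        rw [e1, e2]
        ring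
    rw [this]
    fun_prop
  refine mkR (K := L ⊕ Unit) (L := P ⊕ Z)
    { toFun := fun h => ⟨Sum.elim (fun y : P =>
        h (Sum.inl (C.s y)) - h (Sum.inl (r (C.s y) : L)) +
        (∑ t : Z, h (Sum.inl (t : L)) + h (Sum.inr ()))) (fun z : Z => h (Sum.inl (z : L))), ?_⟩
      map_add' := ?_
      map_smul' := ?_ }
    (fun g => ⟨Sum.elim (fun x : L => g (Sum.inl (C.q x)) - g (Sum.inl C.p) + g (Sum.inr (r x)))
      (fun _ => g (Sum.inl C.p) - ∑ t : Z, g (Sum.inr t)), ?_⟩) ?_ ?_ ?_ ?_ ?_
  · exact Continuous.sumElim (key h) (by fun_prop)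
  · intro f g
    ext x
    rcases x with x | x
    · simp only [ContinuousMap.add_apply, ContinuousMap.coe_mk, Sum.elim_inl,
        Finset.sum_add_distrib]
      ring
    · simp
  · intro c f
    ext x
    rcases x with x | x
    · simp only [ContinuousMap.smul_apply, ContinuousMap.coe_mk, Sum.elim_inl, smul_eq_mul,
        RingHom.id_apply, ← Finset.mul_sum]
      ring
    · simp
  · have := C.quot.continuous
    exact Continuous.sumElim (by fun_prop) (by fun_prop)
  · intro h
    ext x
    rcases x with x | x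
    · simp only [LinearMap.coe_mk, AddHom.coe_mk, ContinuousMap.coe_mk, Sum.elim_inl,
        Sum.elim_inr]
      have h3 : C.s C.p ∈ Z := (C.base _).1 (C.sec _)
      have e3 : (r (C.s C.p) : L) = C.s C.p := congrArg Subtype.val (hrz ⟨_, h3⟩)
      rw [e3]
      rcases C.inj (C.s (C.q x)) x (C.sec _) with he | ⟨h1, h2⟩
      · rw [he]
        ring
      · have e1 : (r (C.s (C.q x)) : L) = C.s (C.q x) := congrArg Subtype.val (hrz ⟨_, h1⟩)
        have e2 : (r x : L) = x := congrArg Subtype.val (hrz ⟨_, h2⟩)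
        rw [e1, e2]
        ring
    · simp only [LinearMap.coe_mk, AddHom.coe_mk, ContinuousMap.coe_mk, Sum.elim_inl,
        Sum.elim_inr]
      have h3 : C.s C.p ∈ Z := (C.base _).1 (C.sec _)
      have e3 : (r (C.s C.p) : L) = C.s C.p := congrArg Subtype.val (hrz ⟨_, h3⟩)
      rw [e3]
      ring
  · intro g
    ext x
    rcases x with y | z
    · simp only [LinearMap.coe_mk, AddHom.coe_mk, ContinuousMap.coe_mk, Sum.elim_inl,
        Sum.elim_inr, C.sec, hqz, hrz]
      simp
    · simp only [LinearMap.coe_mk, AddHom.coe_mk, ContinuousMap.coe_mk, Sum.elim_inl,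
        Sum.elim_inr, hqz, hrz]
      ring
  · intro f hf x
    rcases x with x | x
    · have h1 : f (Sum.inl (r (C.s x) : L)) ≤ ∑ t : Z, f (Sum.inl (t : L)) :=
        Finset.single_le_sum (f := fun t : Z => f (Sum.inl (t : L))) (fun t _ => hf _)
          (Finset.mem_univ _)
      have h2 : 0 ≤ f (Sum.inl (C.s x)) := hf _
      have h3 : 0 ≤ f (Sum.inr ()) := hf _
      change 0 ≤ f (Sum.inl (C.s x)) - f (Sum.inl (r (C.s x) : L)) +
        (∑ t : Z, f (Sum.inl (t : L)) + f (Sum.inr ()))
      linarith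
    · exact hf _
  · rintro (x | x)
    · exact ((PwCont.eval _).sub (PwCont.eval _)).add
        ((PwCont.sum _ fun _ => PwCont.eval _).add (PwCont.eval _))
    · exact PwCont.eval _
  · rintro (x | x)
    · exact ((PwCont.eval _).sub (PwCont.eval _)).add (PwCont.eval _)
    · exact (PwCont.eval _).sub (PwCont.sum _ fun _ => PwCont.eval _)

end M2

end CpK
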