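import Mathlib
import Pool.Agent.CpK.Moves

/-!
# Chains of moves
-/

open Set Filter Topology

namespace CpK

universe u v w

theorem cb_eq_empty_of_lt {X : Type u} [TopologicalSpace X] [T1Space X] {S : Set X}
    {γ δ : Ordinal.{0}} (h : (cb S γ).Finite) (hlt : γ < δ) : cb S δ = ∅ := by
  have h1 := cb_add_one_of_finite h
  have h2 := cb_anti (S := S) (Order.add_one_le_of_lt hlt)
  rw [h1] at h2
  exact subset_empty_iff.1 h2

theorem cb_unit {γ : Ordinal.{0}} (hγ : 1 ≤ γ) : cb (univ : Set Unit) γ = ∅ := by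
  have h1 : cb (univ : Set Unit) 1 = ∅ := cb_one_of_finite (toFinite _)
  have h2 := cb_anti (S := (univ : Set Unit)) hγ
  rw [h1] at h2
  exact subset_empty_iff.1 h2

theorem absorb {K : Type u} [TopologicalSpace K] [CompactSpace K] [T2Space K] [Countable K]
    {γ : Ordinal.{0}} (h1 : (cb (univ : Set K) γ).Finite) (h2 : (cb (univ : Set K) γ).Nonempty)
    (hγ : 1 ≤ γ) : Nonempty (K ≃ₜ (K ⊕ Unit)) := by
  have e : cb (univ : Set (K ⊕ Unit)) γ = Sum.inl '' (cb (univ : Set K) γ) := by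
    rw [cb_sum, cb_unit hγ, image_empty, union_empty]
  refine ms_homeo h1 ?_ h2 ?_
  · rw [e]; exact h1.image _
  · rw [e, ncard_image_of_injective _ Sum.inl_injective]

theorem toPrime {K : Type u} [TopologicalSpace K] [CompactSpace K] [T2Space K] [Countable K]
    {γ : Ordinal.{0}} (h1 : (cb (univ : Set K) γ).Finite) (h2 : (cb (univ : Set K) γ).Nonempty)
    (hγ : 1 ≤ γ) : ∃ (X : Type u) (_ : TopologicalSpace X) (_ : CompactSpace X) (_ : T2Space X)
      (_ : Countable X), (cb (univ : Set X) γ).ncard = 1 ∧ PosLinHomeoCp K X := by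
  have hZ : IsClosed (cb (univ : Set K) γ) := cb_closed isClosed_univ
  obtain ⟨P, _, _, _, _, ⟨C⟩⟩ := exists_collapse hZ h2
  obtain ⟨r, hr, hrz⟩ := exists_retraction hZ h2
  have : Finite (cb (univ : Set K) γ) := h1
  have : Fintype (cb (univ : Set K) γ) := Fintype.ofFinite _
  have : CompactSpace (cb (univ : Set K) γ) := isCompact_iff_compactSpace.1 hZ.isCompact
  obtain ⟨e⟩ := absorb h1 h2 hγ
  refine ⟨P ⊕ (cb (univ : Set K) γ), inferInstance, inferInstance, inferInstance, inferInstance,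
    ?_, (PosLinHomeoCp.of_homeo e).trans (move_one C r hr hrz)⟩
  have e1 : cb (univ : Set (cb (univ : Set K) γ)) γ = ∅ := by
    have h1 : cb (univ : Set (cb (univ : Set K) γ)) 1 = ∅ := cb_one_of_finite (toFinite _)
    have h2 := cb_anti (S := (univ : Set (cb (univ : Set K) γ))) hγ
    rw [h1] at h2
    exact subset_empty_iff.1 h2
  have e2 : cb (univ : Set P) γ = {C.p} := by
    apply Subset.antisymm
    · intro y hy
      by_contra hne
      have hx : C.s y ∉ cb (univ : Set K) γ := by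
        rw [← C.base, C.sec]
        exact hne
      have := (C.cb_iff _ hx γ).1 (by rw [C.sec]; exact hy)
      exact hx this
    · rintro _ rfl
      obtain ⟨z, hz⟩ := h2
      refine C.p_mem hz fun β hβ U hU => ?_
      have h3 := (mem_cb.1 hz).2 β hβ
      rw [accPt_iff_nhds] at h3
      have hfin : (cb (univ : Set K) γ \ {z}).Finite := h1.subset sdiff_subset
      have hnb : U ∩ (cb (univ : Set K) γ \ {z})ᶜ ∈ 𝓝 z :=
        inter_mem hU (hfin.isClosed.isOpen_compl.mem_nhds (by simp))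
      obtain ⟨y, ⟨⟨hyU, hy1⟩, hyβ⟩, hne⟩ := h3 _ hnb
      exact ⟨y, hyU, fun h => hy1 ⟨h, hne⟩, hyβ⟩
  rw [cb_sum, e1, image_empty, union_empty, e2, image_singleton, ncard_singleton]

theorem fromLower {L : Type u} [TopologicalSpace L] [CompactSpace L] [T2Space L] [Countable L]
    {α η : Ordinal.{0}} (hα : 1 ≤ α) (hη : η ≤ α) (h1 : (cb (univ : Set L) (α + η)).Finite)
    (h2 : (cb (univ : Set L) (α + η)).Nonempty) :
    ∃ (X : Type u) (_ : TopologicalSpace X) (_ : CompactSpace X) (_ : T2Space X)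
      (_ : Countable X), (cb (univ : Set X) α).Finite ∧ (cb (univ : Set X) α).Nonempty ∧
      (η < α → (cb (univ : Set X) α).ncard = 1) ∧ PosLinHomeoCp X L := by
  have hZ : IsClosed (cb (univ : Set L) α) := cb_closed isClosed_univ
  have hZne : (cb (univ : Set L) α).Nonempty := h2.mono (cb_anti le_self_add)
  obtain ⟨P, _, _, _, _, ⟨C⟩⟩ := exists_collapse hZ hZne
  obtain ⟨r, hr, hrz⟩ := exists_retraction hZ hZne
  have : CompactSpace (cb (univ : Set L) α) := isCompact_iff_compactSpace.1 hZ.isCompact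
  obtain ⟨e⟩ := absorb h1 h2 (hα.trans le_self_add)
  have e2 : cb (univ : Set P) α = {C.p} := by
    apply Subset.antisymm
    · intro y hy
      by_contra hne
      have hx : C.s y ∉ cb (univ : Set L) α := by
        rw [← C.base, C.sec]
        exact hne
      have := (C.cb_iff _ hx α).1 (by rw [C.sec]; exact hy)
      exact hx this
    · rintro _ rfl
      obtain ⟨z, hz, hza⟩ := closed_has_isolated hZ hZne
      refine C.p_mem hz fun β hβ U hU => ?_
      have h3 := (mem_cb.1 hz).2 β hβ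
      rw [accPt_iff_nhds] at h3 hza
      push Not at hza
      obtain ⟨V, hV, hVs⟩ := hza
      obtain ⟨y, ⟨⟨hyU, hyV⟩, hyβ⟩, hne⟩ := h3 _ (inter_mem hU hV)
      exact ⟨y, hyU, fun h => hne (hVs y ⟨hyV, h⟩), hyβ⟩
  have e3 : (Subtype.val '' (cb (univ : Set (cb (univ : Set L) α)) α)) = cb (univ : Set L) (α + α) := by
    rw [cb_subtype, cb_add]
  have hfin : (cb (univ : Set (cb (univ : Set L) α)) α).Finite := by
    rw [← Set.finite_image_iff (Subtype.val_injective.injOn), e3]
    exact h1.subset (cb_anti (by gcongr))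
  refine ⟨P ⊕ (cb (univ : Set L) α), inferInstance, inferInstance, inferInstance, inferInstance,
    ?_, ?_, ?_, (move_two C r hr hrz).trans (PosLinHomeoCp.of_homeo e.symm)⟩
  · rw [cb_sum, e2]
    exact ((finite_singleton _).image _).union (hfin.image _)
  · rw [cb_sum, e2]
    exact ⟨Sum.inl C.p, Or.inl ⟨C.p, rfl, rfl⟩⟩
  · intro hlt
    have e4 : cb (univ : Set (cb (univ : Set L) α)) α = ∅ := by
      rw [← image_eq_empty, e3]
      exact cb_eq_empty_of_lt h1 (by gcongr)
    rw [cb_sum, e2, e4, image_empty, union_empty, image_singleton, ncard_singleton]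

section

variable {K : Type u} [TopologicalSpace K] [CompactSpace K] [T2Space K] [Countable K]

theorem same_rank {L : Type v} [TopologicalSpace L] [CompactSpace L] [T2Space L] [Countable L]
    {γ : Ordinal.{0}} (hγ : 1 ≤ γ) (h1 : (cb (univ : Set K) γ).Finite)
    (h2 : (cb (univ : Set K) γ).Nonempty) (h3 : (cb (univ : Set L) γ).Finite)
    (h4 : (cb (univ : Set L) γ).Nonempty) : PosLinHomeoCp K L := by
  obtain ⟨X, _, _, _, _, hX, hKX⟩ := toPrime h1 h2 hγ
  have hγ0 : (0 : Ordinal) < γ := zero_lt_one.trans_le hγ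
  obtain ⟨Y, _, _, _, _, hYf, hYne, hY, hYL⟩ := fromLower (L := L) (α := γ) (η := 0) hγ hγ0.le
    (by rwa [add_zero]) (by rwa [add_zero])
  have hY1 := hY hγ0
  have hXf : (cb (univ : Set X) γ).Finite := finite_of_ncard_ne_zero (by rw [hX]; exact one_ne_zero)
  have hXne : (cb (univ : Set X) γ).Nonempty := by
    rw [← ncard_pos hXf, hX]; exact one_pos
  obtain ⟨e⟩ := ms_homeo hXf hYf hXne (hX.trans hY1.symm)
  exact hKX.trans ((PosLinHomeoCp.of_homeo e).trans hYL)

theorem chain_mul {γ : Ordinal.{0}} (hγ : 1 ≤ γ) (h1 : (cb (univ : Set K) γ).Finite)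
    (h2 : (cb (univ : Set K) γ).Nonempty) (n : ℕ) :
    ∀ (L : Type v) [TopologicalSpace L] [CompactSpace L] [T2Space L] [Countable L],
      (cb (univ : Set L) (γ * ((n + 1 : ℕ) : Ordinal.{0}))).Finite →
      (cb (univ : Set L) (γ * ((n + 1 : ℕ) : Ordinal.{0}))).Nonempty → PosLinHomeoCp K L := by
  induction n with
  | zero =>
    intro L _ _ _ _ h3 h4
    simp only [zero_add, Nat.cast_one, mul_one] at h3 h4
    exact same_rank hγ h1 h2 h3 h4
  | succ n ih =>
    intro L _ _ _ _ h3 h4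
    have e : γ * (((n + 1 + 1 : ℕ)) : Ordinal.{0}) = γ * ((n + 1 : ℕ) : Ordinal.{0}) + γ := by
      rw [Nat.cast_add (n + 1) 1, mul_add, Nat.cast_one, mul_one]
    rw [e] at h3 h4
    have hle : γ ≤ γ * ((n + 1 : ℕ) : Ordinal.{0}) := by
      conv_lhs => rw [← mul_one γ]
      gcongr
      exact_mod_cast Nat.le_add_left 1 n
    obtain ⟨X, _, _, _, _, hXf, hXne, -, hXL⟩ := fromLower (L := L) (hγ.trans hle) hle h3 h4
    exact (ih X hXf hXne).trans hXL

theorem chain {L : Type v} [TopologicalSpace L] [CompactSpace L] [T2Space L] [Countable L]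
    {γ δ : Ordinal.{0}} (hγ : 1 ≤ γ) (h1 : (cb (univ : Set K) γ).Finite)
    (h2 : (cb (univ : Set K) γ).Nonempty) (h3 : (cb (univ : Set L) δ).Finite)
    (h4 : (cb (univ : Set L) δ).Nonempty) (hle : γ ≤ δ) (hlt : δ < γ * Ordinal.omega0) :
    PosLinHomeoCp K L := by
  have hγ0 : γ ≠ 0 := (zero_lt_one.trans_le hγ).ne'
  have hdiv : δ / γ < Ordinal.omega0 := by
    rwa [← Ordinal.lt_mul_iff_div_lt hγ0]
  obtain ⟨n, hn⟩ := Ordinal.lt_omega0.1 hdiv
  have hn1 : n ≠ 0 := by
    rintro rfl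
    have h5 : (1 : Ordinal) ≤ δ / γ := by
      rw [← Ordinal.mul_le_iff_le_div hγ0, mul_one]
      exact hle
    rw [hn] at h5
    simp at h5
  obtain ⟨m, rfl⟩ := Nat.exists_eq_succ_of_ne_zero hn1
  have e : δ = γ * ((m + 1 : ℕ) : Ordinal.{0}) + δ % γ := by
    conv_lhs => rw [← Ordinal.div_add_mod δ γ, hn]
  have hle' : γ ≤ γ * ((m + 1 : ℕ) : Ordinal.{0}) := by
    conv_lhs => rw [← mul_one γ]
    gcongr
    exact_mod_cast Nat.le_add_left 1 m
  rw [e] at h3 h4
  obtain ⟨X, _, _, _, _, hXf, hXne, -, hXL⟩ := fromLower (L := L) (hγ.trans hle')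
    ((Ordinal.mod_lt δ hγ0).le.trans hle') h3 h4
  exact (chain_mul hγ h1 h2 m X hXf hXne).trans hXL

end

end CpK
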