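import Mathlib
import Pool.Agent.CpK.ZeroDim

/-!
# The obstruction
-/

open Set Filter Topology MeasureTheory
open scoped CompactlySupported

namespace CpK

universe u v

/-- indicator function of a clopen set -/
noncomputable def ind {K : Type u} [TopologicalSpace K] (U : Set K) (hU : IsClopen U) : C(K, ℝ) :=
  ⟨U.indicator (fun _ => (1 : ℝ)), (continuous_const).indicator (by
    intro x hx
    rw [hU.frontier_eq] at hx
    exact absurd hx (notMem_empty x))⟩

theorem ind_of_mem {K : Type u} [TopologicalSpace K] {U : Set K} {hU : IsClopen U} {x : K}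
    (hx : x ∈ U) : ind U hU x = 1 :=
  indicator_of_mem hx (fun _ => (1 : ℝ))

theorem ind_of_notMem {K : Type u} [TopologicalSpace K] {U : Set K} {hU : IsClopen U} {x : K}
    (hx : x ∉ U) : ind U hU x = 0 :=
  indicator_of_notMem hx (fun _ => (1 : ℝ))

/-- Representing measures of the functionals `f ↦ T f y`. -/
theorem exists_measures {K : Type u} {L : Type v} [TopologicalSpace K] [CompactSpace K] [T2Space K]
    [TopologicalSpace L] [MeasurableSpace K] [BorelSpace K]
    (T : C(K, ℝ) →ₗ[ℝ] C(L, ℝ)) (hT : ∀ f, 0 ≤ f → 0 ≤ T f) :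
    ∃ μ : L → Measure K, (∀ y, IsFiniteMeasure (μ y)) ∧ (∀ y, (μ y).Regular) ∧
      ∀ (y : L) (f : C(K, ℝ)), ∫ x, f x ∂(μ y) = T f y := by
  have hmono : ∀ f g : C(K, ℝ), f ≤ g → T f ≤ T g := by
    intro f g hfg
    have := hT (g - f) (sub_nonneg.2 hfg)
    rw [map_sub] at this
    exact sub_nonneg.1 this
  let Λ : L → (C_c(K, ℝ) →ₚ[ℝ] ℝ) := fun y =>
    { toFun := fun g => T g.toContinuousMap y
      map_add' := fun g g' => by
        have : (g + g').toContinuousMap = g.toContinuousMap + g'.toContinuousMap := rfl
        rw [this, map_add]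
        rfl
      map_smul' := fun c g => by
        have : (c • g).toContinuousMap = c • g.toContinuousMap := rfl
        rw [this, map_smul]
        rfl
      monotone' := fun g g' h => hmono _ _ (fun x => h x) y }
  refine ⟨fun y => RealRMK.rieszMeasure (Λ y), fun y => inferInstance, fun y => inferInstance,
    fun y f => ?_⟩
  let f' : C_c(K, ℝ) :=
    { toFun := f
      hasCompactSupport' := HasCompactSupport.of_compactSpace _ }
  have h1 : f'.toContinuousMap = f := rfl
  have := RealRMK.integral_rieszMeasure (Λ y) f'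
  exact this

section

variable {K : Type u} {L : Type v} [TopologicalSpace K] [CompactSpace K] [T2Space K] [Countable K]
  [TopologicalSpace L] [CompactSpace L] [T2Space L] [Countable L] [MeasurableSpace K] [BorelSpace K]
  {μ : L → Measure K}

omit [TopologicalSpace L] [CompactSpace L] [T2Space L] [Countable L] [BorelSpace K] in
theorem outer (hfin : ∀ y, IsFiniteMeasure (μ y)) (hreg : ∀ y, (μ y).Regular) (y : L) {C : Set K}
    (hC : IsClosed C) {θ : ℝ} (hθ : 0 < θ) :
    ∃ U : Set K, IsClopen U ∧ C ⊆ U ∧ (μ y).real U < (μ y).real C + θ := by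
  have := hfin y
  have := hreg y
  have hθ' : ENNReal.ofReal θ ≠ 0 := by simpa using hθ
  obtain ⟨V, hCV, hV, hVlt⟩ := C.exists_isOpen_lt_add (μ := μ y) (measure_ne_top _ _) hθ'
  obtain ⟨U, hU, hCU, hUV⟩ := exists_clopen_of_closed_subset_open hC hV hCV
  refine ⟨U, hU, hCU, ?_⟩
  have h1 : (μ y).real V < (μ y).real C + θ := by
    rw [measureReal_def, measureReal_def]
    have h2 : (μ y C + ENNReal.ofReal θ).toReal = (μ y C).toReal + θ := by
      rw [ENNReal.toReal_add (measure_ne_top _ _) ENNReal.ofReal_ne_top,
        ENNReal.toReal_ofReal hθ.le]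
    rw [← h2]
    exact (ENNReal.toReal_lt_toReal (measure_ne_top _ _)
      (ENNReal.add_ne_top.2 ⟨measure_ne_top _ _, ENNReal.ofReal_ne_top⟩)).2 hVlt
  exact (measureReal_mono hUV).trans_lt h1

omit [TopologicalSpace L] [CompactSpace L] [T2Space L] [Countable L] in
theorem massive_finite (hfin : ∀ y, IsFiniteMeasure (μ y)) (y : L) {c : ℝ} (hc : 0 < c) :
    {x : K | c ≤ (μ y).real {x}}.Finite := by
  have := hfin y
  have h1 := Measure.finite_const_le_meas_of_disjoint_iUnion (μ y)
    (ε := ENNReal.ofReal c) (by simpa using hc) (As := fun x : K => ({x} : Set K))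
    (fun x => measurableSet_singleton x) (fun x x' hne => by simpa [Function.onFun] using hne)
    (measure_ne_top _ _)
  refine h1.subset fun x hx => ?_
  change ENNReal.ofReal c ≤ μ y {x}
  rw [ENNReal.ofReal_le_iff_le_toReal (measure_ne_top _ _)]
  exact hx

/-- Part (i): ranks go up. -/
theorem push_rank (hfin : ∀ y, IsFiniteMeasure (μ y)) (hreg : ∀ y, (μ y).Regular)
    (hcont : ∀ U : Set K, IsClopen U → Continuous fun y => (μ y).real U)
    {c : ℝ} (hc : 0 < c) (hlow : ∀ U : Set K, IsClopen U → U.Nonempty → ∃ y, c ≤ (μ y).real U)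
    (α : Ordinal.{0}) : ∀ x ∈ cb (univ : Set K) α, ∃ y ∈ cb (univ : Set L) α,
      c ≤ (μ y).real {x} := by
  induction α using WellFoundedLT.induction with
  | ind α ih =>
    intro x hx
    let ι := {p : Set K × Ordinal.{0} // (IsClopen p.1 ∧ x ∈ p.1) ∧
      (p.2 = 0 ∨ ∃ β < α, p.2 = β + 1)}
    let G : ι → Set L := fun i => {y | c ≤ (μ y).real i.1.1} ∩ cb (univ : Set L) i.1.2
    have hclosed : ∀ i, IsClosed (G i) := by
      rintro ⟨⟨U, β⟩, ⟨hU, hxU⟩, hβ⟩
      exact (isClosed_le continuous_const (hcont U hU)).inter (cb_closed isClosed_univ)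
    have hne : ∀ i, (G i).Nonempty := by
      rintro ⟨⟨U, β⟩, ⟨hU, hxU⟩, hβ⟩
      rcases hβ with hβ | ⟨β', hβ', hβ⟩
      · obtain ⟨y, hy⟩ := hlow U hU ⟨x, hxU⟩
        refine ⟨y, hy, ?_⟩
        change β = 0 at hβ
        change y ∈ cb univ β
        rw [hβ]
        simp
      · change β = β' + 1 at hβ
        change ({y | c ≤ (μ y).real U} ∩ cb (univ : Set L) β).Nonempty
        rw [hβ]
        clear hβ
        have h1 := (mem_cb.1 hx).2 β' hβ'
        have h2 : (U ∩ cb (univ : Set K) β').Infinite :=
          Set.Infinite.of_accPt (h1.nhds_inter (hU.isOpen.mem_nhds hxU))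
        have h3 : ∀ x' : K, x' ∈ U ∩ cb (univ : Set K) β' → ∃ y ∈ cb (univ : Set L) β',
            c ≤ (μ y).real {x'} := fun x' hx' => ih β' hβ' x' hx'.2
        have hLne : Nonempty L := by
          obtain ⟨x', hx'⟩ := h2.nonempty
          exact ⟨(h3 x' hx').choose⟩
        choose! g hg1 hg2 using h3
        have h4 : (g '' (U ∩ cb (univ : Set K) β')).Infinite := by
          intro hfinite
          apply h2
          refine (hfinite.biUnion (t := fun y => {x' : K | c ≤ (μ y).real {x'}})
            (fun y _ => massive_finite hfin y hc)).subset ?_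
          intro x' hx'
          exact mem_biUnion (mem_image_of_mem g hx') (hg2 x' hx')
        obtain ⟨y, hy⟩ := h4.exists_accPt_principal
        refine ⟨y, ?_, ?_⟩
        · have hcl : IsClosed {y : L | c ≤ (μ y).real U} :=
            isClosed_le continuous_const (hcont U hU)
          have hsub : g '' (U ∩ cb (univ : Set K) β') ⊆ {y : L | c ≤ (μ y).real U} := by
            rintro _ ⟨x', hx', rfl⟩
            have := hfin (g x')
            exact (hg2 x' hx').trans (measureReal_mono (singleton_subset_iff.2 hx'.1))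
          have h5 : y ∈ closure (g '' (U ∩ cb (univ : Set K) β')) :=
            mem_closure_iff_clusterPt.2 hy.clusterPt
          exact hcl.closure_subset_iff.2 hsub h5
        · rw [mem_cb_add_one]
          refine ⟨trivial, hy.mono (principal_mono.2 ?_)⟩
          rintro _ ⟨x', hx', rfl⟩
          exact hg1 x' hx'
    have hdir : Directed (· ⊇ ·) G := by
      rintro ⟨⟨U, β⟩, ⟨hU, hxU⟩, hβ⟩ ⟨⟨V, γ⟩, ⟨hV, hxV⟩, hγ⟩
      refine ⟨⟨⟨U ∩ V, max β γ⟩, ⟨hU.inter hV, hxU, hxV⟩, ?_⟩, ?_, ?_⟩
      · rcases max_choice β γ with h | h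
        · simp only [h]; exact hβ
        · simp only [h]; exact hγ
      · rintro y ⟨hy1, hy2⟩
        have := hfin y
        have hy1' : c ≤ (μ y).real (U ∩ V) := hy1
        exact ⟨hy1'.trans (measureReal_mono inter_subset_left), cb_anti (le_max_left _ _) hy2⟩
      · rintro y ⟨hy1, hy2⟩
        have := hfin y
        have hy1' : c ≤ (μ y).real (U ∩ V) := hy1
        exact ⟨hy1'.trans (measureReal_mono inter_subset_right), cb_anti (le_max_right _ _) hy2⟩
    have : Nonempty ι := ⟨⟨(univ, 0), ⟨isClopen_univ, trivial⟩, Or.inl rfl⟩⟩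
    obtain ⟨y, hy⟩ := IsCompact.nonempty_iInter_of_directed_nonempty_isCompact_isClosed G hdir hne
      (fun i => (hclosed i).isCompact) hclosed
    rw [mem_iInter] at hy
    refine ⟨y, ?_, ?_⟩
    · rw [mem_cb]
      refine ⟨trivial, fun β hβ => ?_⟩
      have := (hy ⟨(univ, β + 1), ⟨isClopen_univ, trivial⟩, Or.inr ⟨β, hβ, rfl⟩⟩).2
      exact (mem_cb_add_one.1 this).2
    · by_contra hlt
      push Not at hlt
      obtain ⟨U, hU, hxU, hUlt⟩ := outer hfin hreg y (isClosed_singleton (x := x))
        (θ := c - (μ y).real {x}) (by linarith)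
      have h1 := (hy ⟨(U, 0), ⟨hU, hxU rfl⟩, Or.inl rfl⟩).1
      have h1' : c ≤ (μ y).real U := h1
      linarith

omit [TopologicalSpace L] [CompactSpace L] [T2Space L] [Countable L] in
/-- the base case of (ii) -/
theorem finite_case (hfin : ∀ y, IsFiniteMeasure (μ y)) {B : ℝ}
    (hB : ∀ y, (μ y).real univ ≤ B) {ε : ℝ}
    (hsep : ∀ y y' : L, y ≠ y' → ∃ f : C(K, ℝ), (∀ x, |f x| ≤ 1) ∧
      ε ≤ ∫ x, f x ∂(μ y) - ∫ x, f x ∂(μ y')) {C : Set K} (hC : C.Finite) {A : Set L} {κ : ℝ}
    (hκ : 2 * κ < ε) (hm : ∀ y ∈ A, (μ y).real univ - (μ y).real C ≤ κ) : A.Finite := by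
  classical
  by_contra hinf
  rw [Set.not_finite] at hinf
  have hAi : Infinite A := hinf.to_subtype
  have hCm : MeasurableSet C := hC.isClosed.measurableSet
  let F : Finset K := hC.toFinset
  have hFC : (F : Set K) = C := hC.coe_toFinset
  set θ : ℝ := (ε - 2 * κ) / (F.card + 1) with hθ
  have hθpos : 0 < θ := by
    apply div_pos (by linarith)
    positivity
  let N : ℕ := ⌊B / θ⌋₊
  have hbd : ∀ (y : L) (x : K), ⌊(μ y).real {x} / θ⌋₊ < N + 1 := by
    intro y x
    have := hfin y
    rw [Nat.lt_succ_iff]
    apply Nat.floor_mono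
    gcongr
    exact (measureReal_mono (subset_univ _)).trans (hB y)
  let w : A → (F → Fin (N + 1)) := fun y x => ⟨⌊(μ y).real {(x : K)} / θ⌋₊, hbd y x⟩
  obtain ⟨y, y', hne, hyy⟩ := Finite.exists_ne_map_eq_of_infinite w
  have hclose : ∀ x ∈ F, |(μ y).real {x} - (μ y').real {x}| < θ := by
    intro x hx
    have h1 : ⌊(μ y).real {x} / θ⌋₊ = ⌊(μ y').real {x} / θ⌋₊ := by
      have := congrFun hyy ⟨x, hx⟩
      exact congrArg Fin.val this
    have a1 : (0 : ℝ) ≤ (μ y).real {x} / θ := by positivity
    have a2 : (0 : ℝ) ≤ (μ y').real {x} / θ := by positivity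
    have h2 := Nat.floor_le a1
    have h3 := Nat.floor_le a2
    have h4 := Nat.lt_floor_add_one ((μ y).real {x} / θ)
    have h5 := Nat.lt_floor_add_one ((μ y').real {x} / θ)
    rw [h1] at h2 h4
    have h6 : |(μ y).real {x} / θ - (μ y').real {x} / θ| < 1 := by
      rw [abs_lt]
      constructor <;> linarith
    rw [← sub_div, abs_div, abs_of_pos hθpos, div_lt_one hθpos] at h6
    exact h6
  obtain ⟨f, hf, hfe⟩ := hsep y y' (fun h => hne (Subtype.ext h))
  have hint : ∀ z : L, Integrable (fun x => f x) (μ z) := by
    intro z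
    have := hfin z
    exact BoundedContinuousFunction.integrable _ (BoundedContinuousFunction.mkOfCompact f)
  have hdec : ∀ z : L, ∫ x, f x ∂(μ z) = ∑ x ∈ F, (μ z).real {x} * f x + ∫ x in Cᶜ, f x ∂(μ z) := by
    intro z
    have := hfin z
    rw [← integral_add_compl hCm (hint z)]
    congr 1
    rw [← hFC, setIntegral_finset F (hint z).integrableOn]
    rfl
  have htail : ∀ z ∈ A, |∫ x in Cᶜ, f x ∂(μ z)| ≤ κ := by
    intro z hz
    have := hfin z
    have h1 := norm_setIntegral_le_of_norm_le_const (μ := μ z) (s := Cᶜ) (f := fun x => f x)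
      (C := 1) (measure_lt_top _ _) (fun x _ => by rw [Real.norm_eq_abs]; exact hf x)
    rw [one_mul, Real.norm_eq_abs] at h1
    have h2 : (μ z).real Cᶜ = (μ z).real univ - (μ z).real C := by
      rw [measureReal_compl hCm]
    rw [h2] at h1
    exact h1.trans (hm z hz)
  have h7 : ∑ x ∈ F, (μ y).real {x} * f x - ∑ x ∈ F, (μ y').real {x} * f x ≤ F.card * θ := by
    rw [← Finset.sum_sub_distrib, ← nsmul_eq_mul]
    refine Finset.sum_le_card_nsmul _ _ _ fun x hx => ?_
    rw [← sub_mul]
    calc ((μ y).real {x} - (μ y').real {x}) * f x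
        ≤ |((μ y).real {x} - (μ y').real {x}) * f x| := le_abs_self _
      _ = |(μ y).real {x} - (μ y').real {x}| * |f x| := abs_mul _ _
      _ ≤ θ * 1 := by
          gcongr
          · exact (hclose x hx).le
          · exact hf x
      _ = θ := mul_one _
  have h8 := abs_le.1 (htail y y.2)
  have h9 := abs_le.1 (htail y' y'.2)
  rw [hdec, hdec] at hfe
  have h10 : (F.card : ℝ) * θ < ε - 2 * κ := by
    have h11 : ((F.card : ℝ) + 1) * θ = ε - 2 * κ := by
      rw [hθ]
      field_simp
    nlinarith
  linarith

/-- (ii): the `ω^a` obstruction. -/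
theorem omega_obstruction (hfin : ∀ y, IsFiniteMeasure (μ y)) (hreg : ∀ y, (μ y).Regular)
    (hcont : ∀ U : Set K, IsClopen U → Continuous fun y => (μ y).real U) {B : ℝ}
    (hB : ∀ y, (μ y).real univ ≤ B) {ε : ℝ}
    (hsep : ∀ y y' : L, y ≠ y' → ∃ f : C(K, ℝ), (∀ x, |f x| ≤ 1) ∧
      ε ≤ ∫ x, f x ∂(μ y) - ∫ x, f x ∂(μ y')) (a : Ordinal.{0}) :
    ∀ (C : Set K) (A : Set L) (κ : ℝ), IsClosed C → IsClosed A →
      cb C (Ordinal.omega0 ^ a) = ∅ → 2 * κ < ε →
      (∀ y ∈ A, (μ y).real univ - (μ y).real C ≤ κ) → cb A (Ordinal.omega0 ^ a) = ∅ := by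
  classical
  induction a using WellFoundedLT.induction with
  | ind a ih =>
    intro C A κ hC hA hCa hκ hm
    rcases Ordinal.zero_or_succ_or_isSuccLimit a with rfl | ⟨b, rfl⟩ | hlim
    · rw [Ordinal.opow_zero] at hCa ⊢
      exact cb_one_of_finite (finite_case hfin hB hsep (finite_of_cb_one hC hCa) hκ hm)
    · rw [Order.succ_eq_add_one] at ih hCa ⊢
      have hb : b < b + 1 := Order.lt_add_one_iff.2 le_rfl
      set W := Ordinal.omega0 ^ b with hW
      have hWpos : 0 < W := Ordinal.opow_pos _ Ordinal.omega0_pos
      have hpow : Ordinal.omega0 ^ (b + 1) = W * Ordinal.omega0 := by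
        rw [Ordinal.opow_add, Ordinal.opow_one]
      rw [hpow] at hCa ⊢
      obtain ⟨β, hβ, hCβ⟩ := exists_cb_empty_of_limit hC.isCompact
        (Ordinal.isSuccLimit_mul_right hWpos Ordinal.isSuccLimit_omega0) hCa
      obtain ⟨n', hn', hβn⟩ := (Ordinal.lt_mul_iff_of_isSuccLimit Ordinal.isSuccLimit_omega0).1 hβ
      obtain ⟨n, rfl⟩ := Ordinal.lt_omega0.1 hn'
      have hCn : cb C (W * n) = ∅ := subset_empty_iff.1 (hCβ ▸ cb_anti hβn.le)
      -- the derived sets
      let Cj : ℕ → Set K := fun j => cb C (W * j)
      have hCj : ∀ j, IsClosed (Cj j) := fun j => cb_closed hC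
      have hCj0 : Cj 0 = C := by simp [Cj]
      have hCjs : ∀ j, Cj (j + 1) = cb (Cj j) W := by
        intro j
        simp only [Cj]
        rw [← cb_add, Nat.cast_add, mul_add, Nat.cast_one, mul_one]
      let Aj : ℕ → Set L := fun j => cb A (W * j)
      have hAj : ∀ j, IsClosed (Aj j) := fun j => cb_closed hA
      have hAjs : ∀ j, Aj (j + 1) = cb (Aj j) W := by
        intro j
        simp only [Aj]
        rw [← cb_add, Nat.cast_add, mul_add, Nat.cast_one, mul_one]
      let Φ : L → ℝ := fun y => ∑ j ∈ Finset.range n, (μ y).real (Cj (j + 1))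
      set η : ℝ := (ε - 2 * κ) / 4 with hη
      have hηpos : 0 < η := by
        rw [hη]; linarith
      have claim : ∀ k : ℕ, ∀ y ∈ Aj k, (k : ℝ) * η ≤ Φ y := by
        intro k
        induction k with
        | zero =>
          intro y _
          simp only [Nat.cast_zero, zero_mul]
          exact Finset.sum_nonneg fun j _ => measureReal_nonneg
        | succ k ihk =>
          intro y hy
          by_contra hlt
          push Not at hlt
          set θ : ℝ := (((k + 1 : ℕ) : ℝ) * η - Φ y) / (n + 1) with hθ
          have hθpos : 0 < θ := div_pos (by linarith) (by positivity)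
          have hex : ∀ j : ℕ, ∃ U : Set K, IsClopen U ∧ Cj (j + 1) ⊆ U ∧
              (μ y).real U < (μ y).real (Cj (j + 1)) + θ :=
            fun j => outer hfin hreg y (hCj (j + 1)) hθpos
          choose U hU hCU hUlt using hex
          have hsum : ∑ j ∈ Finset.range n, (μ y).real (U j) < ((k + 1 : ℕ) : ℝ) * η := by
            have h1 : ∑ j ∈ Finset.range n, (μ y).real (U j) ≤
                ∑ j ∈ Finset.range n, ((μ y).real (Cj (j + 1)) + θ) :=
              Finset.sum_le_sum fun j _ => (hUlt j).le
            rw [Finset.sum_add_distrib, Finset.sum_const, Finset.card_range, nsmul_eq_mul] at h1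
            have h2 : ((n : ℝ) + 1) * θ = ((k + 1 : ℕ) : ℝ) * η - Φ y := by
              rw [hθ]
              field_simp
            have h3 : ∑ j ∈ Finset.range n, (μ y).real (Cj (j + 1)) = Φ y := rfl
            rw [h3] at h1
            nlinarith
          have hopen : IsOpen {y' : L | ∑ j ∈ Finset.range n, (μ y').real (U j) <
              ((k + 1 : ℕ) : ℝ) * η} :=
            isOpen_lt (continuous_finsetSum _ fun j _ => hcont (U j) (hU j)) continuous_const
          obtain ⟨V, hV, hyV, hVs⟩ := exists_clopen_nhd (hopen.mem_nhds hsum)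
          have hA' : cb (Aj k ∩ V) W = ∅ := by
            refine ih b hb (⋃ j ∈ Finset.range n, (Cj j ∩ (U j)ᶜ)) (Aj k ∩ V) (κ + η) ?_
              ((hAj k).inter hV.isClosed) ?_ ?_ ?_
            · exact (Finset.range n).finite_toSet.isClosed_biUnion
                (fun j _ => (hCj j).inter (hU j).compl.isClosed)
            · apply cb_biUnion_empty
              · exact fun j _ => (hCj j).inter (hU j).compl.isClosed
              · intro j _
                rw [cb_inter_open (hU j).compl.isOpen, ← hCjs]
                ext x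
                simp only [mem_inter_iff, mem_compl_iff, mem_empty_iff_false, iff_false, not_and,
                  not_not]
                exact fun h => hCU j h
            · rw [hη]
              linarith
            · rintro y' ⟨hy'A, hy'V⟩
              have := hfin y'
              have hy'A0 : y' ∈ A := cb_subset hy'A
              have h1 := hm y' hy'A0
              have h2 := ihk y' hy'A
              have h3 : ∑ j ∈ Finset.range n, (μ y').real (U j) < ((k + 1 : ℕ) : ℝ) * η := hVs hy'V
              have hcover : C ⊆ (⋃ j ∈ Finset.range n, (Cj j ∩ (U j)ᶜ)) ∪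
                  ⋃ j ∈ Finset.range n, (U j \ Cj (j + 1)) := by
                intro x hx
                have hex : ∃ j, x ∉ Cj j := ⟨n, by
                  intro h
                  have h' : x ∈ cb C (W * n) := h
                  rw [hCn] at h'
                  exact h'⟩
                have h4 := Nat.find_spec hex
                have h5 : Nat.find hex ≠ 0 := by
                  intro h
                  rw [h, hCj0] at h4
                  exact h4 hx
                obtain ⟨m, hmm⟩ := Nat.exists_eq_succ_of_ne_zero h5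
                have h6 : x ∈ Cj m := by
                  by_contra hcon
                  exact Nat.find_min hex (by omega) hcon
                have h7 : x ∉ Cj (m + 1) := by
                  rw [hmm] at h4
                  exact h4
                have h8 : m < n := by
                  by_contra hge
                  push Not at hge
                  have h9 : x ∈ cb C (W * m) := h6
                  have h10 : x ∈ cb C (W * n) := cb_anti (by gcongr) h9
                  rw [hCn] at h10
                  exact h10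
                by_cases hxU : x ∈ U m
                · right
                  exact mem_biUnion (Finset.mem_range.2 h8) ⟨hxU, h7⟩
                · left
                  exact mem_biUnion (Finset.mem_range.2 h8) ⟨h6, hxU⟩
              have h4 : (μ y').real C ≤ (μ y').real (⋃ j ∈ Finset.range n, (Cj j ∩ (U j)ᶜ)) +
                  ∑ j ∈ Finset.range n, (μ y').real (U j \ Cj (j + 1)) :=
                (measureReal_mono hcover).trans ((measureReal_union_le _ _).trans
                  (by gcongr; exact measureReal_biUnion_finset_le _ _))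
              have h5 : ∑ j ∈ Finset.range n, (μ y').real (U j \ Cj (j + 1)) =
                  ∑ j ∈ Finset.range n, (μ y').real (U j) - Φ y' := by
                rw [← Finset.sum_sub_distrib]
                exact Finset.sum_congr rfl fun j _ =>
                  measureReal_sdiff (hCU j) (hCj (j + 1)).measurableSet
              rw [h5] at h4
              have h6 : ((k + 1 : ℕ) : ℝ) * η = k * η + η := by
                push_cast
                ring
              linarith
          have hyA' : y ∈ cb (Aj k ∩ V) W := by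
            rw [cb_inter_open hV.isOpen, ← hAjs]
            exact ⟨hy, hyV⟩
          rw [hA'] at hyA'
          exact hyA'
      -- conclusion
      obtain ⟨k, hk⟩ := exists_nat_gt (n * B / η)
      have hAk : Aj k = ∅ := by
        rw [eq_empty_iff_forall_notMem]
        intro y hy
        have h1 := claim k y hy
        have h2 : Φ y ≤ n * B := by
          have h3 : Φ y ≤ ∑ j ∈ Finset.range n, B := by
            refine Finset.sum_le_sum fun j _ => ?_
            have := hfin y
            exact (measureReal_mono (subset_univ _)).trans (hB y)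
          simpa using h3
        rw [div_lt_iff₀ hηpos] at hk
        linarith
      have hle : W * k ≤ W * Ordinal.omega0 := by
        gcongr
        exact (Ordinal.natCast_lt_omega0 k).le
      have := cb_anti (S := A) hle
      have hAk' : cb A (W * k) = ∅ := hAk
      rw [hAk'] at this
      exact subset_empty_iff.1 this
    · have hlim' : Order.IsSuccLimit (Ordinal.omega0 ^ a) :=
        Ordinal.isSuccLimit_opow Ordinal.one_lt_omega0 hlim
      obtain ⟨β, hβ, hCβ⟩ := exists_cb_empty_of_limit hC.isCompact hlim' hCa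
      obtain ⟨b, hb, hβb⟩ := (Ordinal.lt_opow_of_isSuccLimit Ordinal.omega0_ne_zero hlim).1 hβ
      have h1 : cb C (Ordinal.omega0 ^ b) = ∅ := subset_empty_iff.1 (hCβ ▸ cb_anti hβb.le)
      have h2 := ih b hb C A κ hC hA h1 hκ hm
      have h3 := cb_anti (S := A) (Ordinal.opow_le_opow_right Ordinal.omega0_pos hb.le)
      rw [h2] at h3
      exact subset_empty_iff.1 h3

end

end CpK
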